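import Pool.Agent.Helper7.HL.Defs

/-!
# Haglund's conjecture for large `k`: the rows

Every `ST_XXX` is a statement; the row `XXX` is the theorem `st_XXX : ST_A → ... → ST_XXX`
(the hypotheses are the rows it depends on).  The doc string gives the proof.

Notation in the doc strings: `δ_j = dl k j = k - 1 - j`, `gt_m = gtt q m` with
`W(u) = sum gt_m u^m = W(q u) H(u)`, `Φ(u) = sum_m g_m u^m = prod_i φ(x_i u)`,
`φ(u) = sum ph_m u^m`, `φ(u) (1 - u) = φ(q u) (1 - t u)`.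
-/

namespace Pool.Agent.Helper7.HL

open Finset MvPolynomial
open Pool.Agent.Helper32.HG

/-! ## Part A: algebra of the column operators -/

/-- LF (80 lines).  `Lf φ` is linear, and on an alternant it is a determinant. -/
def ST_LF : Prop := ∀ (k : ℕ) (S : Type) [CommRing S] (φ : Fin k → ℕ → S),
  (∀ p p' : MvPolynomial (Fin k) S, Lf φ (p + p') = Lf φ p + Lf φ p') ∧
  (∀ (a : S) (p : MvPolynomial (Fin k) S), Lf φ (C a * p) = a * Lf φ p) ∧
  (∀ (l : Fin k → ℕ) (a : S), Lf φ (monomial (ex l) a) = a * ∏ j, φ j (l j)) ∧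
  ∀ l : Fin k → ℕ, Lf φ (altp k S l) = Matrix.det (Matrix.of fun i j => φ j (l i))

/-- AL1 (120 lines).  Coefficients of alternants, antisymmetry, and the coefficients of
`Dl * p`. -/
def ST_AL1 : Prop := ∀ (k : ℕ) (S : Type) [CommRing S],
  (∀ l β : Fin k → ℕ, coeff (ex β) (altp k S l) =
    ∑ σ : Equiv.Perm (Fin k), if β = l ∘ σ then ((Equiv.Perm.sign σ : ℤ) : S) else 0) ∧
  (∀ (l : Fin k → ℕ) (τ : Equiv.Perm (Fin k)),
    altp k S (l ∘ τ) = C ((Equiv.Perm.sign τ : ℤ) : S) * altp k S l) ∧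
  (∀ (l : Fin k → ℕ) (i j : Fin k), i ≠ j → l i = l j → altp k S l = 0) ∧
  ∀ (β : Fin k → ℕ) (p : MvPolynomial (Fin k) S), coeff (ex β) (Dl k S * p) =
    ∑ σ : Equiv.Perm (Fin k), if ∀ i, dl k (σ i) ≤ β i then
      ((Equiv.Perm.sign σ : ℤ) : S) * coeff (ex (fun i => β i - dl k (σ i))) p else 0

/-- AL2 (150 lines).  For symmetric `f`, `Dl * f = sum_γ f_γ alt(γ + δ)`; and `Dl` is not a zero
divisor (over any ring: the exponent of `Dl` which is maximal for the lexicographic order is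
`δ`, with coefficient `1`; look at the lexicographically maximal exponent `γ` of `f` and the
coefficient of `γ + δ`; or use the sum of squares as in PM, or `MvPolynomial` monomial
orders). -/
def ST_AL2 : Prop := ∀ (k : ℕ) (S : Type) [CommRing S],
  (∀ f : MvPolynomial (Fin k) S, f.IsSymmetric → Dl k S * f =
    ∑ γ ∈ f.support, C (coeff γ f) * altp k S (fun i => γ i + dl k i)) ∧
  (∀ f : MvPolynomial (Fin k) S, Dl k S * f = 0 → f = 0)

/-- DC (120 lines).  Coefficients and linearity of Macdonald's operator. -/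
def ST_DC : Prop := ∀ (N : ℕ) (R : Type) [CommRing R] (q t v : R),
  (∀ (β : Fin N → ℕ) (f : MvPolynomial (Fin N) R), coeff (ex β) (Dop q t v N f) =
    ∑ σ : Equiv.Perm (Fin N), if ∀ i, dl N i ≤ β (σ i) then
      ((Equiv.Perm.sign σ : ℤ) : R) * (coeff (ex (fun i => β (σ i) - dl N i)) f *
        ∏ i, (1 - v * q ^ (β (σ i) - dl N i) * t ^ (dl N i))) else 0) ∧
  (∀ f g : MvPolynomial (Fin N) R, Dop q t v N (f + g) = Dop q t v N f + Dop q t v N g) ∧
  (∀ (a : R) (f : MvPolynomial (Fin N) R), Dop q t v N (C a * f) = C a * Dop q t v N f) ∧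
  ∀ f : MvPolynomial (Fin N) R, v = 0 → f.IsSymmetric → Dop q t v N f = Dl N R * f

/-- EM (150 lines).  `sum_j h_{b - δ_j} E_{j l} = z_l^b` (compare coefficients in
`prod_{m != l} (1 - z_m u) * sum h_a u^a = 1 / (1 - z_l u)`, where the polynomial
`prod_{m != l}` has degree `k - 1`), and `det E = Dl`: multiply by the matrix
`(h_{δ_i - δ_j})`, which is unitriangular; the product is `(z_l^(δ_i))`, whose determinant is
`altp k S (dl k)`. -/
def ST_EM : Prop := ∀ (k : ℕ) (S : Type) [CommRing S],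
  (∀ (b : ℕ) (l : Fin k), ∑ j, hz k S ((b : ℤ) - dl k j) * Emat k S j l = X l ^ b) ∧
  Matrix.det (Emat k S) = Dl k S

/-- JT (60 lines, from EM): `Dl * det (h_{β_i - δ_j}) = alt(β)`. -/
def ST_JT : Prop := ∀ (k : ℕ) (S : Type) [CommRing S] (β : Fin k → ℕ),
  Dl k S * Sd k S (fun i => (β i : ℤ)) = altp k S β

/-- UL (120 lines).  If `F` vanishes at vectors with a negative entry and
`sum_σ sgn(σ) F(β - δ o σ) = 0` for all `β : Fin k → ℕ`, then `F = 0`.
Proof: for `α : Fin k → ℕ` take `β = α + δ`: the term `σ = 1` is `F(α)`, and for `σ ≠ 1` the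
vector `α + δ - δ o σ` has the same sum and a larger sum of `i`-weighted entries, e.g.
`sum_i δ_i γ_i` is strictly larger than `sum_i δ_i α_i` (because `sum_i δ_i^2 >
sum_i δ_i δ_{σ i}`), so induct downwards on `sum_i δ_i γ_i` (bounded by `k * sum_i γ_i`). -/
def ST_UL : Prop := ∀ (k : ℕ) (M : Type) [AddCommGroup M] (F : (Fin k → ℤ) → M),
  (∀ (γ : Fin k → ℤ) (i : Fin k), γ i < 0 → F γ = 0) →
  (∀ β : Fin k → ℕ, ∑ σ : Equiv.Perm (Fin k),
    (Equiv.Perm.sign σ : ℤ) • F (fun i => (β i : ℤ) - dl k (σ i)) = 0) →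
  ∀ γ : Fin k → ℤ, F γ = 0

/-- CV (100 lines).  `W(u) = W(q u) H(u)` coefficientwise, and
`W(u) u^(δ-1) (1 - t^δ / H(u)) = u^(δ-1) (W(u) - t^δ W(q u))`. -/
def ST_CV : Prop := ∀ (K : Type) [Field K] (q t : K), GQ q →
  (∀ m : ℕ, gtt q m = ∑ p ∈ antidiagonal m, C (q ^ p.1) * gtt q p.1 * hh K p.2) ∧
  ∀ (k : ℕ) (j : Fin k) (b : ℕ),
    ∑ p ∈ antidiagonal b, gtt q p.1 * bs t k j p.2 = csf q t k j b

/-- SG (120 lines, from CV).  `gt_m[X + (1 - q) Z] = sum gt_a[X] h_b[Z]`.  Proof: both sides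
have generating series `V(u)` with `V(0) = 1` and `V(u) = V(q u) H(u) chi(u)`: for the left side
apply `shf` to the recursion, for the right side `W(u) Hk(u)`, `chi(u) = Hk(u) / Hk(q u)`; the
solution is unique by `1 - q^m ≠ 0` (a constant, invertible in the polynomial ring). -/
def ST_SG : Prop := ∀ (K : Type) [Field K] (q : K), GQ q → ∀ k m : ℕ,
  shf q k (gtt q m) = ∑ p ∈ antidiagonal m, C (gtt q p.1) * hk k (Sy K) p.2

/-- A3 (250 lines, from LF, JT, UL, CV, SG).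
Let `F(α) = B_k(prod gt_{α_i}) - Lf csf (Dl prod h_{α_i})` (`gt` and `h` zero at negative
indices).  By UL it is enough that `sum_σ sgn F(β - δ o σ) = 0`.  By SG the first part is
`Lf bs` of `Dl * sum_a (prod gt_{a_i}) det(h_{β_i - a_i - δ_j})`, by JT this is
`sum_a (prod gt_{a_i}) alt(β - a)` (terms with `a_i > β_i` vanish), by LF and multilinearity in
the rows it becomes `det_{i j}(sum_a gt_a bs_j(β_i - a)) = det(csf_j(β_i))` (CV).  The second
part is `Lf csf (Dl det(h_{β_i - δ_j})) = Lf csf (alt β) = det(csf_j(β_i))`. -/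
def ST_A3 : Prop := ∀ (K : Type) [Field K] (q t : K), GQ q → ∀ (k : ℕ) (α : Fin k → ℕ),
  Bop q t k (∏ i, gtt q (α i)) = Lf (csf q t k) (Dl k (Sy K) * ∏ i, hk k (Sy K) (α i))

/-- SYM (120 lines).  The symmetry of the kernel `prod_{i l} c(y_i x_l)`: both sides are the sum
over matrices `d : Fin M → Fin N → ℕ` with row sums `α` and column sums `γ` of
`prod c(d_{i l})`. -/
def ST_SYM : Prop := ∀ (S : Type) [CommRing S] (c : ℕ → S) (M N : ℕ) (α : Fin M → ℕ)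
  (γ : Fin N → ℕ), coeff (ex γ) (∏ i, gw c N (α i)) = coeff (ex α) (∏ l, gw c M (γ l))

/-- KD (100 lines, from AL1, SYM; `hk k S = gw 1 k`).  Both sides are
`sum_σ sgn(σ) #{matrices with row sums α and column sums l - δ o σ}`. -/
def ST_KD : Prop := ∀ (k : ℕ) (S : Type) [CommRing S] (α l : Fin k → ℕ),
  coeff (ex l) (Dl k S * ∏ i, hk k S (α i)) = coeff (ex α) (Sd k S (fun i => (l i : ℤ)))

/-- DG (120 lines).  `Sd` vanishes if two entries of `l` agree (`alt_Sd`); otherwise sort: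
`l o σ` strictly decreasing, and the library lemma `supp_dom` gives
`sum_T α ≤ sum_{i < |T|} (l_{σ i} - δ_i)`; with `S = σ '' {i < |T|}` and
`sum_S δ ≤ sum_{i < |T|} δ_i` this is `≤ sum_S (l - δ)`.  The sum: `supp_card`, `T = univ`. -/
def ST_DG : Prop := ∀ (k : ℕ) (S : Type) [CommRing S] (α l : Fin k → ℕ),
  coeff (ex α) (Sd k S (fun i => (l i : ℤ))) ≠ 0 →
  Dge (fun i => (l i : ℤ) - dl k i) (fun i => (α i : ℤ)) ∧
    ∑ i, (l i : ℤ) = ∑ i, (α i : ℤ) + ∑ i, (dl k i : ℤ)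

/-- TQ (250 lines, from A3, LF, KD, DG).  `H_mu` is in the span of the products of `gt` above
`mu`.  Induction on the list: `Bop` is linear; for `c :: cs` use the induction hypothesis with
`k := c`, then A3: `B_c(prod gt_{α_i}) = sum_l coeff_l(Dl prod h_{α_i}) prod_j csf_j(l_j)`; by
KD and DG a nonzero coefficient has `l - δ` above `α`, and `prod_j csf_j(l_j)` is a multiple of
`prod_j gt_{l_j + 1 - δ_j}` or zero; `rowl c (c :: cs) = rowl c cs + 1`.  Then pass from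
`Fin c` to `Fin k`, `c ≤ k`, by adding zeros (`gt_0 = 1`).  `Dge` is transitive. -/
def ST_TQ : Prop := ∀ (K : Type) [Field K] (q t : K), GQ q → ∀ (k : ℕ) (cs : List ℕ),
  Dec (k :: cs) → Hc q t cs ∈ spg q k (rowl k cs) ∧ ∑ i, rowl k cs i = cs.sum

/-- GTG (150 lines, from CV).  `gt_m[Z (1 - t)] = g_m(Z; q, t)`: both generating series satisfy
`G(0) = 1`, `G(u) prod(1 - x_i u) = G(q u) prod(1 - t x_i u)`. -/
def ST_GTG : Prop := ∀ (K : Type) [Field K] (q t : K), GQ q → ∀ N m : ℕ,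
  ev K N (ptm t (gtt q m)) = gg q t N m

/-- PH (100 lines).  `u φ'(u) = ψ(u) φ(u)`, `ψ(u) = sum_j (1 - t^j) / (1 - q^j) u^j`.  With
`D = u φ' - ψ φ` one has `D(u) (1 - u) = D(q u) (1 - t u)`, `D(0) = 0`, so `D_m (1 - q^m) =
D_{m-1} (1 - t q^(m-1))` and `D = 0`; here `ψ(u) - ψ(q u) = u / (1 - u) - t u / (1 - t u)`. -/
def ST_PH : Prop := ∀ (K : Type) [Field K] (q t : K), GQ q → ∀ m : ℕ,
  (m : K) * ph q t m = ∑ j ∈ range m, om q t (j + 1) * ph q t (m - (j + 1))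

/-- PSI (150 lines, from PH; compare `Psi_gh` in `HG/Pow.lean`).  The library function `gh` in
the ring of power sums goes to `g_m`: both satisfy `m g_m = sum_j ω_j p_j g_{m-j}`. -/
def ST_PSI : Prop := ∀ (K : Type) [Field K] [CharZero K] (q t : K), GQT q t →
  ∀ n m : ℕ, m ≤ n → Psi n K (gh n (om q t) m) = gg q t n m

/-- GD (120 lines, from DC, SYM).  Expand the determinant by columns:
`sum_σ sgn prod_j (1 - v q^(β_{σ j} - δ_j) t^(δ_j)) g^{(k)}_{β_{σ j} - δ_j}` and use SYM. -/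
def ST_GD : Prop := ∀ (K : Type) [Field K] (q t v : K) (k N : ℕ) (α : Fin k → ℕ)
  (β : Fin N → ℕ), coeff (ex β) (Dop q t v N (∏ i, gg q t N (α i))) =
    coeff (ex α) (Matrix.det (Matrix.of fun i j : Fin N => Gm q t v k (dl N j) (β i)))

/-- CR (120 lines).  With `A(u) = prod_i (1 - y_i u) = sum A_b u^b` (degree `k`), `Gm 1 k b a`
is the coefficient of `u^a` in `u^b (Φ(u) - t^b Φ(q u))`, `Φ(q u) = Φ(u) A(u) / A(t u)`, so
`sum_b A_b u^b (Φ(u) - t^b Φ(q u)) = A(u) Φ(u) - A(t u) Φ(q u) = 0`. -/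
def ST_CR : Prop := ∀ (K : Type) [Field K] (q t : K), GQ q → ∀ k a : ℕ,
  ∑ b ∈ range (k + 1), Polynomial.coeff (∏ m : Fin k, (1 - Polynomial.C (X m) * Polynomial.X :
    Polynomial (MvPolynomial (Fin k) K))) b * Gm q t 1 k b a = 0

/-- KD3 (150 lines, from CR).  (1) For `k < N` the columns `δ_j = b = 0, ..., k` of the matrix
are linearly dependent with coefficient `A_0 = 1`.  (2) For `N = k` replace the column of
`δ = 0` by `- A_k` times the column of `b = k` (`A_k = (-1)^k e_k`), move it to the other end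
(`k - 1` transpositions), and use `Gm 1 k (b+1) (a+1) = Gm t k b a`. -/
def ST_KD3 : Prop := ∀ (K : Type) [Field K] (q t : K), GQ q → ∀ k : ℕ,
  (∀ (N : ℕ) (β : Fin N → ℕ), k < N →
    Matrix.det (Matrix.of fun i j : Fin N => Gm q t 1 k (dl N j) (β i)) = 0) ∧
  ∀ β : Fin k → ℕ,
    Matrix.det (Matrix.of fun i j : Fin k => Gm q t 1 k (dl k j) (β i + 1)) =
      (∏ i : Fin k, X i) *
        Matrix.det (Matrix.of fun i j : Fin k => Gm q t t k (dl k j) (β i))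

/-- NU (150 lines).  `sum_j E_{j l} u^(δ_j) = prod_{m != l} (1 - x_m u)`, so the sum is the
coefficient of `u^b` in `Φ(u) prod_{m != l} (1 - x_m u) - Φ(q u) prod_{m != l} (1 - t x_m u)
= (φ(x_l u) - φ(q x_l u)) prod_{m != l} φ(x_m u) (1 - x_m u)`. -/
def ST_NU : Prop := ∀ (K : Type) [Field K] (q t : K), GQ q → ∀ (k b : ℕ) (l : Fin k),
  ∑ j, Emat k K j l * Gm q t 1 k (dl k j) b =
    ∑ d ∈ piAntidiag (univ : Finset (Fin k)) b,
      monomial (ex d) (∏ m, if m = l then (1 - q ^ (d m)) * ph q t (d m) else pp q t (d m))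

/-- SK (200 lines, from EM, NU).  `Dl * det(Gm(β_i)) = det(sum_j E_{j l} Gm_j(β_i))` and by NU
the coefficient is the sum over permutations `σ` and matrices `c : Fin k → Fin k → ℕ` with row
sums `β`, column sums `β'` of `sgn(σ)` times `prod_{i m}` (`p°` if `m = σ i`, else `p`); this is
symmetric under transposition (`σ -> σ⁻¹`). -/
def ST_SK : Prop := ∀ (K : Type) [Field K] (q t : K), GQ q → ∀ (k : ℕ) (β β' : Fin k → ℕ),
  coeff (ex β) (Dl k K *
      Matrix.det (Matrix.of fun i j : Fin k => Gm q t 1 k (dl k j) (β' i))) =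
    coeff (ex β') (Dl k K *
      Matrix.det (Matrix.of fun i j : Fin k => Gm q t 1 k (dl k j) (β i)))

/-- K2S (250 lines, from A3, GTG, KD, JT, AL1, UL, DC, GD, KD3, SK).  Fix `β` and let
`F(α) = coeff_β(Dl S_α) - coeff_β(e_k Dop_t(prod g_{α_i}))`, `S_α = ev ptm B_k(prod gt_{α_i}) =
sum_l coeff_α(Sd(l)) prod_j Gm 1 k δ_j (l_j + 1)` by A3, KD, GTG.  By UL it is enough that
`sum_σ sgn F(β'' - δ o σ) = 0`.  First part: `sum_σ sgn coeff_{β'' - δ σ}(Sd l) =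
coeff_{β''}(alt l)` (AL1, JT), so it is `coeff_β(Dl G(β'' + 1))`, `G(b) = det(Gm 1 k δ_j b_i)`.
Second part: it vanishes if some `β_i = 0`, otherwise by GD it is
`sum_σ sgn coeff_{β'' - δ σ}(det Gm_t(β - 1)) = coeff_{β''}(Dl det Gm_t(β - 1)) =
coeff_{β'' + 1}(Dl G(β))` by KD3 (2).  They agree by SK (if `β_i = 0` then `G(β) = 0`, its row
`i` is zero). -/
def ST_K2S : Prop := ∀ (K : Type) [Field K] (q t : K), GQ q → ∀ (k : ℕ) (α : Fin k → ℕ),
  Dl k K * ev K k (ptm t (Bop q t k (∏ i, gtt q (α i)))) =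
    (∏ i : Fin k, X i) * Dop q t t k (∏ i, gg q t k (α i))

/-- KF (150 lines, from TQ, K2S, GTG, GD, KD3, DC).  The field version of the three facts, by
linearity from the span of the products of `gt`. -/
def ST_KF : Prop := ∀ (K : Type) [Field K] (q t : K), GQ q →
  (∀ (k : ℕ) (cs : List ℕ), Dec (k :: cs) →
    Dl k K * fJ q t k (k :: cs) = (∏ i : Fin k, X i) * Dop q t t k (fJ q t k cs)) ∧
  (∀ (N : ℕ) (cs : List ℕ), Dec cs → 0 < N → (∀ c ∈ cs, c < N) →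
    Dop q t 1 N (fJ q t N cs) = 0) ∧
  ∀ (N : ℕ) (cs : List ℕ), Dec cs → ∀ γ : Fin N → ℕ,
    coeff (ex γ) (fJ q t N cs) ≠ 0 → ∑ i, γ i = cs.sum

/-- MP (200 lines).  Everything commutes with ring homomorphisms. -/
def ST_MP : Prop := ∀ (R R' : Type) [CommRing R] [CommRing R'] (φ : R →+* R'),
  (∀ (q t : R) (cs : List ℕ), MvPolynomial.map φ (Hc q t cs) = Hc (φ q) (φ t) cs) ∧
  (∀ (q t : R) (N : ℕ) (cs : List ℕ),
    MvPolynomial.map φ (fJ q t N cs) = fJ (φ q) (φ t) N cs) ∧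
  (∀ (q t v : R) (N : ℕ) (f : MvPolynomial (Fin N) R),
    MvPolynomial.map φ (Dop q t v N f) = Dop (φ q) (φ t) (φ v) N (MvPolynomial.map φ f)) ∧
  (∀ (N : ℕ), MvPolynomial.map φ (Dl N R) = Dl N R') ∧
  (∀ (N : ℕ) (μ : Fin N → ℕ) (f : MvPolynomial (Fin N) R),
    φ (scf N μ f) = scf N μ (MvPolynomial.map φ f)) ∧
  ∀ (q t : R) (cs : List ℕ), φ (clf q t cs) = clf (φ q) (φ t) cs

/-- the embedding of `ℤ[q][t]` into `ℚ(q)(t)` -/
noncomputable def emb : R0 →+* RatFunc (RatFunc ℚ) :=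
  (algebraMap (Polynomial (RatFunc ℚ)) (RatFunc (RatFunc ℚ))).comp
    (Polynomial.mapRingHom ((algebraMap (Polynomial ℚ) (RatFunc ℚ)).comp
      (Polynomial.mapRingHom (Int.castRingHom ℚ))))

/-- the element `q` of `ℚ(q)(t)` -/
noncomputable def qF : RatFunc (RatFunc ℚ) := RatFunc.C RatFunc.X

/-- the element `t` of `ℚ(q)(t)` -/
noncomputable def tF : RatFunc (RatFunc ℚ) := RatFunc.X

/-- GEN (120 lines).  Injectivity, images of the variables, genericity of `(q, t)` and of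
`(1/q, 1/t)`. -/
def ST_GEN : Prop := Function.Injective emb ∧ emb qz = qF ∧ emb tz = tF ∧ qF ≠ 0 ∧ tF ≠ 0 ∧
  GQT qF tF ∧ GQT qF⁻¹ tF⁻¹

/-- UN (120 lines, from KF, MP, GEN).  The three facts over every commutative ring: they hold
over `ℚ(q)(t)`, hence over `ℤ[q][t]` (`map emb` is injective), hence everywhere. -/
def ST_UN : Prop := ∀ (R : Type) [CommRing R] (q t : R),
  (∀ (k : ℕ) (cs : List ℕ), Dec (k :: cs) →
    Dl k R * fJ q t k (k :: cs) = (∏ i : Fin k, X i) * Dop q t t k (fJ q t k cs)) ∧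
  (∀ (N : ℕ) (cs : List ℕ), Dec cs → 0 < N → (∀ c ∈ cs, c < N) →
    Dop q t 1 N (fJ q t N cs) = 0) ∧
  ∀ (N : ℕ) (cs : List ℕ), Dec cs → ∀ γ : Fin N → ℕ,
    coeff (ex γ) (fJ q t N cs) ≠ 0 → ∑ i, γ i = cs.sum

/-- STB (120 lines).  Symmetry and stability of the evaluation in `N` variables. -/
def ST_STB : Prop := ∀ (R : Type) [CommRing R] (f : Sy R),
  (∀ N : ℕ, (ev R N f).IsSymmetric) ∧
  ∀ (N : ℕ) (γ : Fin N → ℕ),
    coeff (ex (Fin.snoc γ 0 : Fin (N + 1) → ℕ)) (ev R (N + 1) f) = coeff (ex γ) (ev R N f)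

/-- PD (150 lines).  `ν` antitone, `γ = (ν + δ) o σ - δ`.  (1) `γ` is above `ν`: for `T` with
`|T| = m` take `S = σ⁻¹ {i < m}`: `sum_S γ = sum_{i<m} (ν + δ)_i - sum_S δ ≥ sum_{i<m} ν_i ≥
sum_T ν`.  (2) If `ν` is above `γ` then `σ = 1`: with the same `S`, `sum_S γ ≤ sum_{i<m} ν_i`
forces `sum_S δ = sum_{i<m} δ_i`, so `S = {i < m}`, for all `m`. -/
def ST_PD : Prop := ∀ (N : ℕ) (ν : Fin N → ℕ) (σ : Equiv.Perm (Fin N)), Antitone ν →
  Dge (fun i => (ν (σ i) : ℤ) + dl N (σ i) - dl N i) (fun i => (ν i : ℤ)) ∧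
  (Dge (fun i => (ν i : ℤ)) (fun i => (ν (σ i) : ℤ) + dl N (σ i) - dl N i) → σ = 1)

/-- PM (120 lines).  The leading term principle.  A finite nonempty set of exponents, invariant
under permutations, contains an antitone `ν` such that for `σ ≠ 1` the vectors
`(ν + δ) o σ - δ` and `ν + δ - δ o σ`, if they have no negative entry, are not in the set.
Proof: take `ν` with maximal sum of squares, and sort it.  `|(ν + δ) o σ - δ|² > |ν|²` by the
strict rearrangement inequality (`ν + δ` and `δ` are strictly decreasing), see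
`Monovary.sum_mul_comp_perm_lt_sum_mul_iff`; the second vector is a permutation of the first
kind (for `σ⁻¹`). -/
def ST_PM : Prop := ∀ (N : ℕ) (B : Set (Fin N → ℕ)), B.Finite → B.Nonempty →
  (∀ γ ∈ B, ∀ σ : Equiv.Perm (Fin N), γ ∘ σ ∈ B) →
  ∃ ν ∈ B, Antitone ν ∧ ∀ σ : Equiv.Perm (Fin N), σ ≠ 1 →
    ((∀ i, dl N i ≤ ν (σ i) + dl N (σ i)) →
      (fun i => ν (σ i) + dl N (σ i) - dl N i) ∉ B) ∧
    ((∀ i, dl N (σ i) ≤ ν i + dl N i) → (fun i => ν i + dl N i - dl N (σ i)) ∉ B)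

/-- TT (250 lines, from UN, STB, PD, PM, AL1, DC).  Triangularity and the leading coefficient.
Induction on `cs`, then on `N - head`.  `[]`: `fJ = 1`.
(a) `N = k`, list `k :: cs`.  Let `G = fJ k (k :: cs)`, `F = fJ k cs`, `λ' = rowl k cs`, so
`rowl k (k :: cs) = λ' + 1`.  If the set of exponents of `G` not below `λ' + 1` is nonempty, PM
gives `ν`; in the coefficient of `ν + δ` in `Dl G` only `σ = 1` survives (an exponent
`κ = ν + δ - δ o σ` of `G` outside the set would be below `λ' + 1`, but `κ` is above `ν` by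
PD (1)); so by UN the coefficient of `ν + δ` in `e_k Dop_t F` is not `0`, so `ν ≥ 1` and some
`((ν - 1) + δ) o σ - δ` is an exponent of `F`, below `λ'`, and above `ν - 1` by PD:
contradiction.  The leading coefficient: compare the coefficients of `λ' + 1 + δ`; by PD (2)
only `σ = 1` contributes on both sides.
(b) `N > k` (all entries `< N`): let the set of exponents of `fJ N cs` not below `rowl N cs` be
nonempty, `ν` from PM.  If `ν_{N-1} = 0` then `ν` restricted is an exponent of `fJ (N-1) cs` by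
STB: contradiction.  Otherwise the coefficient of `ν + δ` in `Dop_1 (fJ N cs) = 0` is
`G_ν prod (1 - q^(ν_i) t^(δ_i)) ≠ 0` (as before only `σ = 1`): contradiction.  The leading
coefficient by STB. -/
def ST_TT : Prop := ∀ (K : Type) [Field K] (q t : K), GQT q t → ∀ (N : ℕ) (cs : List ℕ),
  Dec cs → (∀ c ∈ cs, c ≤ N) →
  (∀ γ : Fin N → ℕ, coeff (ex γ) (fJ q t N cs) ≠ 0 →
    Dge (fun i => (rowl N cs i : ℤ)) (fun i => (γ i : ℤ))) ∧
  coeff (ex (rowl N cs)) (fJ q t N cs) = clf q t cs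

/-- IDA (200 lines).  Abstract identification.  Let `D` be the lift of
`Psi f - c P_λ = sum_{ν below} (...) m_ν` and write it as `sum_{κ below} d_κ P_κ`
(unitriangularity).  `D` is orthogonal to the `m_ν`, `ν` below `λ`, hence to `P_κ`, `κ` below
`λ`, so `d_κ <P_κ, P_κ> = 0`; `<P_κ, P_κ> ≠ 0` because otherwise `P_κ` would be orthogonal to
all `P_μ`, `μ ∈ parts n`, which span, and `Bf` is nondegenerate on `WtN n`
(`Bf ω f (monomial d 1) = coeff d f * wgt ω d`).  Library: `IsMac.bf`, `IsMac.low`,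
`lift_exists`, `Psi_inj`, `sym_expand`, `bf_*` lemmas. -/
def ST_IDA : Prop := ∀ (K : Type) [Field K] [CharZero K] (n : ℕ) (q t : K), GQT q t →
  ∀ P : (Fin n → ℕ) → MvPolynomial (Fin n) K, IsMac n q t P → ∀ lam ∈ parts n,
  ∀ (f : MvPolynomial (Fin n) K) (c : K) (u : (Fin n → ℕ) → K), WtN n f →
  Psi n K f = c • msym n K lam + ∑ ν ∈ below n lam, u ν • msym n K ν →
  (∀ ν ∈ below n lam, ∀ g : MvPolynomial (Fin n) K, WtN n g → Psi n K g = msym n K ν →
    Bf (om q t) g f = 0) →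
  Psi n K f = c • P lam

/-- IDB (200 lines, from TQ, GTG, PSI).  The lift of `fJ`: by TQ with `k = n`,
`fJ = sum c_ρ prod g_{ρ_i}`, `ρ` above `rowl n cs`, `|ρ| = n`; take `f = sum c_ρ prod gh_{ρ_i}`.
`Bf g f = sum c_ρ coeff_ρ(m_ν)` (`coeff_Psi`, symmetric `Bf`), and `ρ = ν o σ` is impossible:
`ν` would be above `rowl n cs = lam` and below and different. -/
def ST_IDB : Prop := ∀ (K : Type) [Field K] [CharZero K] (n : ℕ) (q t : K), GQT q t →
  ∀ cs : List ℕ, Dec cs → (∀ c ∈ cs, c ≤ n) → cs.sum = n → rowl n cs ∈ parts n →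
  ∃ f : MvPolynomial (Fin n) K, WtN n f ∧ Psi n K f = fJ q t n cs ∧
    ∀ ν ∈ below n (rowl n cs), ∀ g : MvPolynomial (Fin n) K, WtN n g →
      Psi n K g = msym n K ν → Bf (om q t) g f = 0

/-- ID (120 lines, from IDA, IDB, TT, STB, UN).  `sym_expand`, `Dge` for `ν ∈ parts n` gives
`DomLe`. -/
def ST_ID : Prop := ∀ (K : Type) [Field K] [CharZero K] (n : ℕ) (q t : K), GQT q t →
  ∀ P : (Fin n → ℕ) → MvPolynomial (Fin n) K, IsMac n q t P →
  ∀ cs : List ℕ, Dec cs → (∀ c ∈ cs, c ≤ n) → cs.sum = n → rowl n cs ∈ parts n →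
  fJ q t n cs = clf q t cs • P (rowl n cs)

/-- CO (150 lines).  Columns and rows. -/
def ST_CO : Prop := ∀ (n : ℕ) (lam : Fin n → ℕ), lam ∈ parts n →
  Dec (cols lam) ∧ (∀ c ∈ cols lam, c ≤ n) ∧ (cols lam).sum = n ∧ rowl n (cols lam) = lam ∧
  ∀ (K : Type) [Field K] (q t : K), clf q t (cols lam) =
    ∏ i : Fin n, ∏ j ∈ range (lam i), (1 - q ^ (lam i - j - 1) *
      t ^ ((univ.filter (fun i' : Fin n => i < i' ∧ j < lam i')).card + 1))

/-- SC (120 lines, from JT, AL1; `sch_exists`).  The Schur expansion. -/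
def ST_SC : Prop := ∀ (n : ℕ) (R : Type) [CommRing R] (f : MvPolynomial (Fin n) R),
  f.IsSymmetric → (∀ γ : Fin n → ℕ, coeff (ex γ) f ≠ 0 → ∑ i, γ i = n) →
  f = ∑ μ ∈ parts n, scf n μ f • schur n R μ

/-- SD (60 lines, from AL1, PD).  The Schur coefficient of `mu` vanishes unless `mu` is below
`lam`, if all exponents are below `lam`. -/
def ST_SD : Prop := ∀ (n : ℕ) (R : Type) [CommRing R] (f : MvPolynomial (Fin n) R)
  (lam μ : Fin n → ℕ), Antitone μ →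
  (∀ γ : Fin n → ℕ, coeff (ex γ) f ≠ 0 →
    Dge (fun i => (lam i : ℤ)) (fun i => (γ i : ℤ))) →
  scf n μ f ≠ 0 → Dge (fun i => (lam i : ℤ)) (fun i => (μ i : ℤ))

/-! ## Part C: `q = 1` -/

/-- C1 (150 lines, from UN, TT, GEN, MP, STB, AL2).  One column:
`fJ N [c] = prod_{i<c} (1 - t^(i+1)) e_c`.  For `N = c` from UN and `Dop_t 1 =
prod (1 - t^(δ_i + 1)) Dl` (over any ring, `Dl` is no zero divisor).  For `N > c` over
`ℚ(q)(t)`: by TT all exponents are `0,1`-vectors of sum `c`; by symmetry the coefficient is that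
of `(1^c, 0^(N-c))`, which by STB is that of `N = c`.  Then to `ℤ[q][t]` and every ring. -/
def ST_C1 : Prop := ∀ (R : Type) [CommRing R] (q t : R) (N c : ℕ), c ≤ N →
  fJ q t N [c] = C (∏ i ∈ range c, (1 - t ^ (i + 1))) * esymm (Fin N) R c

/-- C2 (80 lines, from LF).  At `q = 1` the shift is trivial (`chi = 1`), `B_k f = B_k(1) f`. -/
def ST_C2 : Prop := ∀ (R : Type) [CommRing R] (t : R) (N : ℕ) (cs : List ℕ),
  fJ 1 t N cs = (cs.map (fun c => fJ 1 t N [c])).prod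

/-! ## Part D: symmetry -/

/-- INV (80 lines).  The same family is the Macdonald family for the inverse parameters:
`zqt q⁻¹ t⁻¹ d = (t / q)^n zqt q t d` for `d ∈ cyc n`. -/
def ST_INV : Prop := ∀ (K : Type) [Field K] (n : ℕ) (q t : K), q ≠ 0 → t ≠ 0 →
  ∀ P : (Fin n → ℕ) → MvPolynomial (Fin n) K, IsMac n q t P → IsMac n q⁻¹ t⁻¹ P

/-- the sum of the arm lengths -/
def armS : List ℕ → ℕ
  | [] => 0
  | k :: cs => (∑ i : Fin k, rowl k cs i) + armS cs

/-- the sum of the (leg lengths + 1) -/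
def legS : List ℕ → ℕ
  | [] => 0
  | k :: cs => (∑ i : Fin k, (dl k i + 1)) + legS cs

/-- CI (60 lines).  `c_λ(1/q, 1/t) = (-1)^n q^(-w) t^(-S) c_λ(q, t)`. -/
def ST_CI : Prop := ∀ (K : Type) [Field K] (q t : K) (cs : List ℕ), q ≠ 0 → t ≠ 0 →
  clf q⁻¹ t⁻¹ cs * q ^ armS cs * t ^ legS cs = (-1) ^ cs.sum * clf q t cs

/-- the homomorphism `q -> 1/q`, `t -> 1/t` -/
noncomputable def emi : R0 →+* RatFunc (RatFunc ℚ) :=
  Polynomial.eval₂RingHom (Polynomial.eval₂RingHom (Int.castRingHom _) qF⁻¹) tF⁻¹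

/-- LAU (150 lines, from GEN).  From the identity of Laurent polynomials to the symmetry of the
coefficients. -/
def ST_LAU : Prop := ∀ (A : R0) (n w S : ℕ),
  emi A * qF ^ w * tF ^ S = (-1) ^ n * emb A →
  (∀ i j : ℕ, w < i ∨ S < j → (A.coeff j).coeff i = 0) ∧
  ∀ i j : ℕ, i ≤ w → j ≤ S →
    (A.coeff j).coeff i = (-1) ^ n * (A.coeff (S - j)).coeff (w - i)

/-- SYA (100 lines, from ID, INV, CI, GEN, MP, LAU). -/
def ST_SYA : Prop := ∀ (n : ℕ) (P : (Fin n → ℕ) → MvPolynomial (Fin n) (RatFunc (RatFunc ℚ))),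
  IsMac n qF tF P → ∀ cs : List ℕ, Dec cs → (∀ c ∈ cs, c ≤ n) → cs.sum = n →
  rowl n cs ∈ parts n → ∀ μ ∈ parts n,
  (∀ i j : ℕ, armS cs < i ∨ legS cs < j → ((aP n cs μ).coeff j).coeff i = 0) ∧
  ∀ i j : ℕ, i ≤ armS cs → j ≤ legS cs → ((aP n cs μ).coeff j).coeff i =
    (-1) ^ n * ((aP n cs μ).coeff (legS cs - j)).coeff (armS cs - i)

/-! ## Part V: divisibility by `(1 - q)^n` at `t = q^k` -/

/-- VD (250 lines, from UN, STB, PM, AL1, DC).  Induction on `cs`, then on `N`.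
(a) `N = c`, list `c :: cs`: every factor `1 - q^k q^(γ_i) q^(k δ_i)` of `Dop_t` is divisible by
`1 - q`, so `(1-q)^c (1-q)^(cs.sum)` divides `e_c Dop_t(fJ c cs) = Dl fJ c (c :: cs)`, and
divisibility passes from `Dl * G` to `G`: PM with the set of exponents whose coefficient is not
divisible (or work modulo `(1-q)^n` and use AL2 over the quotient ring).
(b) `N` larger than all entries: PM with the set of exponents whose coefficient is not
divisible by `(1-q)^n`, `ν` from PM.  If `ν_{N-1} = 0` use STB and the induction hypothesis.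
Otherwise `0 = G_ν prod (1 - q^(ν_i + k δ_i)) + sum_{σ ≠ 1} ± G_γ prod (1 - q^(γ_i + k δ_i))`;
all products are divisible by `(1-q)^N`; cancel it: `G_ν prod [ν_i + k δ_i]_q` is divisible by
`(1-q)^n`, and `1 - q` is prime to `[m]_q`, `m ≥ 1` (value `m ≠ 0` at `q = 1`; `1 - q` is a
prime element of `ℤ[q]` not dividing `[m]_q`). -/
def ST_VD : Prop := ∀ (k N : ℕ) (cs : List ℕ), Dec cs → (∀ c ∈ cs, c ≤ N) →
  ∀ γ : Fin N → ℕ, (1 - Polynomial.X : Polynomial ℤ) ^ cs.sum ∣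
    coeff (ex γ) (fJ (Polynomial.X : Polynomial ℤ) (Polynomial.X ^ k) N cs)

/-! ## Part B: `t = 0` -/

/-- BW1 (200 lines).  Let `|d| ≤ |c|`, `m = |c| - |d|`, `w = wlk N c d`, so `w(j+N) = w(j) - m`
(all `j`).  Put `Rm(a) = max_{a ≤ j ≤ a+N} w(j) = max_{j ≥ a} w(j)`.  Then `Rm(a) - Rm(a+1)` is
`1` if `w(j) < w(a)` for all `j ∈ (a, a+N]` (then the step is `-1`, so `a % N ∈ c \ d`), else
`0`.  Summing over `a < N`: `|Um| = Rm(0) - Rm(N) = m`. -/
def ST_BW1 : Prop := ∀ (N : ℕ) (c d : Finset ℕ), c ⊆ range N → d ⊆ range N →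
  d.card ≤ c.card →
  (Um N c d).card + d.card = c.card ∧ Um N c d ⊆ c \ d ∧ (Rl N c d).card = d.card ∧
  (Rr N c d).card = c.card ∧ Rl N c d ⊆ range N ∧ Rr N c d ⊆ range N

/-- BW2 (200 lines).  Rotation.  The walk `w'` of the rotated pair is `w'(j) = w'(1) + w(j-1)`,
`w'(1) = [N-1 ∈ d] - [N-1 ∈ c]`; with `Rm` as in BW1, `Hen = Rm(0)`, `Rm'(1) = w'(1) + Rm(0)`,
`Rm'(0) = Rm'(1) + [0 ∈ Um']`, `Um' = rt Um`. -/
def ST_BW2 : Prop := ∀ (N : ℕ) (c d : Finset ℕ), 0 < N → c ⊆ range N → d ⊆ range N →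
  d.card ≤ c.card → Rl N (rt N c) (rt N d) = rt N (Rl N c d) ∧
  Hen N (rt N c) (rt N d) + (if N - 1 ∈ Rl N c d then 1 else 0) =
    Hen N c d + (if N - 1 ∈ d then 1 else 0)

/-- BW3 (60 lines).  `d' ⊆ d` implies `Um c d ⊆ Um c d'`; hence the list `LL b` is decreasing
for inclusion. -/
def ST_BW3 : Prop := ∀ (N : ℕ),
  (∀ c d d' : Finset ℕ, d' ⊆ d → Um N c d ⊆ Um N c d') ∧
  ∀ b : List (Finset ℕ), (LL N b).Pairwise (fun x y => y ⊆ x)

/-- BW4 (250 lines).  The two factor lemma.  Only the value `w(i+1)` of the walk changes (and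
`w(i+1+N)`), and `w(i+1) ≤ max (w i) (w (i+2))` before and after, so `Hen` and the `Rm(a)` for
`a ≠ i+1 (mod N)` do not change.  `i ∈ Um` iff `Rm(i) > Rm(i+1)`, `i+1 ∈ Um` iff
`Rm(i+1) > Rm(i+2)`.  Six cases for `(c, d)` at `i, i+1` (where `f` acts on `d`: `d` has `i` and
not `i+1`, and `c` has both, none, or only `i`; where `f` acts on `c`: `c` has `i` and not `i+1`
and `d` has both, none, or only `i+1`), in each case check the possible values of
`Rm(i+2)`.  (Checked by computer for `N ≤ 5`.) -/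
def ST_BW4 : Prop := ∀ (N i : ℕ) (c d : Finset ℕ), i + 1 < N → c ⊆ range N → d ⊆ range N →
  d.card ≤ c.card →
  phi i [Rl N c d, Rr N c d] = phi i [c, d] ∧ eps i [Rl N c d, Rr N c d] = eps i [c, d] ∧
  (0 < phi i [c, d] → ∀ c' d' : Finset ℕ, fo i [c, d] = [c', d'] →
    [Rl N c' d', Rr N c' d'] = fo i [Rl N c d, Rr N c d] ∧ Hen N c' d' = Hen N c d)

/-- BW5 (100 lines).  Stability in `N`, and the full column. -/
def ST_BW5 : Prop := ∀ (N : ℕ) (c d : Finset ℕ), c ⊆ range N → d ⊆ range N →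
  (d.card ≤ c.card → Um (N + 1) c d = Um N c d ∧ Hen (N + 1) c d = Hen N c d) ∧
  Hen N (range N) d = 0

/-- BL1 (200 lines).  The crystal operators on lists. -/
def ST_BL1 : Prop := ∀ (i : ℕ) (b : List (Finset ℕ)),
  (phi i b + wtc b (i + 1) = eps i b + wtc b i) ∧
  (0 < phi i b → eo i (fo i b) = b ∧ phi i (fo i b) + 1 = phi i b ∧
    eps i (fo i b) = eps i b + 1 ∧ wtc (fo i b) i + 1 = wtc b i ∧
    wtc (fo i b) (i + 1) = wtc b (i + 1) + 1 ∧
    (∀ j, j ≠ i → j ≠ i + 1 → wtc (fo i b) j = wtc b j) ∧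
    ∀ (N : ℕ) (cs : List ℕ), i + 1 < N → b ∈ tl N cs → fo i b ∈ tl N cs) ∧
  (0 < eps i b → fo i (eo i b) = b ∧ phi i (eo i b) = phi i b + 1 ∧
    eps i (eo i b) + 1 = eps i b ∧ wtc (eo i b) i = wtc b i + 1 ∧
    wtc (eo i b) (i + 1) + 1 = wtc b (i + 1) ∧
    (∀ j, j ≠ i → j ≠ i + 1 → wtc (eo i b) j = wtc b j) ∧
    ∀ (N : ℕ) (cs : List ℕ), i + 1 < N → b ∈ tl N cs → eo i b ∈ tl N cs)

/-- BL2 (250 lines, from BW1, BW4, BL1).  Moving a column to the front commutes with the crystal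
operators.  Induction on `r`; the key is associativity: for lists `x :: y :: z`,
`phi`, `eps` and `fo` of `[x, y] ++ z` depend on `[x, y]` only through `phi i [x, y]`,
`eps i [x, y]` and `fo i [x, y]`. -/
def ST_BL2 : Prop := ∀ (N i r : ℕ) (cs : List ℕ) (b : List (Finset ℕ)), i + 1 < N → Dec cs →
  b ∈ tl N cs → r < cs.length →
  (mv N r b).head? = (LL N b)[r]? ∧ phi i (mv N r b) = phi i b ∧
  eps i (mv N r b) = eps i b ∧ (0 < phi i b → mv N r (fo i b) = fo i (mv N r b)) ∧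
  (0 < eps i b → mv N r (eo i b) = eo i (mv N r b))

/-- BL3 (200 lines, from BW4, BL1, BL2).  The energy is invariant.  For `c :: b`: if `f` acts on
`b`, `DD (f b) = DD b` by induction and `H(c, L_j(f b)) = H(c, L_j b)`: `mv j (f b) =
f (mv j b) = f (L_j :: rest)`, either `L_j` is unchanged or `f` acts on `L_j`, and then
`phi (L_j :: rest) = phi [L_j] > eps [c]` and BW4 applies to `[c, L_j]`.  If `f` acts on `c`:
`phi [L_j] ≤ phi (L_j :: rest) = phi b ≤ eps [c]`, so `f [c, L_j] = [f c, L_j]`. -/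
def ST_BL3 : Prop := ∀ (N i : ℕ) (cs : List ℕ) (b : List (Finset ℕ)), i + 1 < N → Dec cs →
  b ∈ tl N cs → (0 < phi i b → DD N (fo i b) = DD N b) ∧ (0 < eps i b → DD N (eo i b) = DD N b)

/-- BL4 (150 lines, from BW1, BW2).  Rotation of tableaux. -/
def ST_BL4 : Prop := ∀ (N : ℕ) (cs : List ℕ), 0 < N → Dec cs →
  (∀ b ∈ tl N cs, b.map (rt N) ∈ tl N cs ∧ LL N (b.map (rt N)) = (LL N b).map (rt N) ∧
    DD N (b.map (rt N)) + (LL N b).countP (fun x => decide (N - 1 ∈ x)) =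
      DD N b + wtc b (N - 1) ∧
    ∀ i < N, wtc (b.map (rt N)) ((i + 1) % N) = wtc b i) ∧
  Set.BijOn (fun b : List (Finset ℕ) => b.map (rt N)) (tl N cs) (tl N cs)

/-- BR0 (150 lines, from BL1, BL2, BL3).  The plain reflection. -/
def ST_BR0 : Prop := ∀ (N i : ℕ) (cs : List ℕ) (b : List (Finset ℕ)), i + 1 < N → Dec cs →
  b ∈ tl N cs → rf0 i b ∈ tl N cs ∧ rf0 i (rf0 i b) = b ∧ wtc (rf0 i b) i = wtc b (i + 1) ∧
  wtc (rf0 i b) (i + 1) = wtc b i ∧ (∀ j, j ≠ i → j ≠ i + 1 → wtc (rf0 i b) j = wtc b j) ∧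
  DD N (rf0 i b) = DD N b ∧
  ∀ (r j : ℕ) (x y : Finset ℕ), j ≠ i → j ≠ i + 1 → (LL N b)[r]? = some x →
    (LL N (rf0 i b))[r]? = some y → (j ∈ x ↔ j ∈ y)

/-- BRP (150 lines, from BL1, BL2, BL3).  The reflection with `phi' = eps + 1`, on tableaux with
`phi > 0`.  Last claim: if `x = L_r(b)` contains `i` and not `i + 1`, then `L_r` does not
change: in `mv r b = x :: z` one has `phi (x :: z) = 1 + phi z`, `f` acts on `x` only if
`phi = 1`, and `e` never. -/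
def ST_BRP : Prop := ∀ (N i : ℕ) (cs : List ℕ) (b : List (Finset ℕ)), i + 1 < N → Dec cs →
  b ∈ tl N cs → 0 < phi i b → rfp i b ∈ tl N cs ∧ 0 < phi i (rfp i b) ∧
  rfp i (rfp i b) = b ∧ wtc (rfp i b) i = wtc b (i + 1) + 1 ∧
  wtc (rfp i b) (i + 1) + 1 = wtc b i ∧ (∀ j, j ≠ i → j ≠ i + 1 → wtc (rfp i b) j = wtc b j) ∧
  DD N (rfp i b) = DD N b ∧
  ∀ (r : ℕ) (x : Finset ℕ), (LL N b)[r]? = some x → i ∈ x → i + 1 ∉ x →
    (LL N (rfp i b))[r]? = some x

/-- BRM (150 lines, from BL1, BL3).  The reflection with `phi' + 1 = eps`, on tableaux with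
`eps > 0`; on `b1 ++ y` with `phi y = 0`, `eps y = 1` it is `rf0 b1 ++ y`. -/
def ST_BRM : Prop := ∀ (N i : ℕ) (cs : List ℕ) (b : List (Finset ℕ)), i + 1 < N → Dec cs →
  b ∈ tl N cs → 0 < eps i b → rfm i b ∈ tl N cs ∧ 0 < eps i (rfm i b) ∧
  rfm i (rfm i b) = b ∧ wtc (rfm i b) i + 1 = wtc b (i + 1) ∧
  wtc (rfm i b) (i + 1) = wtc b i + 1 ∧ (∀ j, j ≠ i → j ≠ i + 1 → wtc (rfm i b) j = wtc b j) ∧
  DD N (rfm i b) = DD N b ∧
  ∀ b1 y : List (Finset ℕ), b = b1 ++ y → phi i y = 0 → eps i y = 1 →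
    ∃ b2 : List (Finset ℕ), b2.length = b1.length ∧ rfm i b = b2 ++ y

/-- BS1 (80 lines, from BR0).  `FB` is symmetric (adjacent transpositions generate). -/
def ST_BS1 : Prop := ∀ (N : ℕ) (cs : List ℕ), Dec cs → (FB N cs).IsSymmetric

/-- BS2 (250 lines, from BS1, BRM, BL1, AL1, AL2).  Schur expansion.  `Dl FB =
sum_b q^D alt(wt + δ)` (AL2).  For `b` not highest weight let `c :: b2` be the shortest suffix
which is not, `i` minimal with `wt_{i+1} > wt_i` there; then `i + 1 ∈ c`, `i ∉ c`,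
`wt_i(b2) = wt_{i+1}(b2)`, `eps i b2 = 0`, `phi i b2 = 0` (a suffix with `HW` has all
`eps = 0`, and `phi - eps = wt_i - wt_{i+1}`), `phi i (c :: b2) = 0`, `eps i (c :: b2) = 1`; the
map `b -> rfm i b` keeps `c :: b2`, is an involution and swaps the entries `i`, `i+1` of
`wt + δ`.  For highest weight `b` the coefficient of `μ + δ` in `alt(wt + δ)` is `[wt = μ]`
(`μ` antitone). -/
def ST_BS2 : Prop := ∀ (N : ℕ) (cs : List ℕ) (μ : Fin N → ℕ), Dec cs → Antitone μ →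
  ∀ T : Finset (List (Finset ℕ)), (∀ b, b ∈ T ↔ b ∈ tl N cs ∧ HW N b ∧
    ∀ i : Fin N, wtc b i.val = μ i) →
  scf N μ (FB N cs) = ∑ b ∈ T, Polynomial.X ^ DD N b

/-- BS3 (300 lines, from BS1, BR0, BRP, BL4, BW3, AL1, AL2, DC).  `Dop` at `t = 0`, `v = 1` kills
`FB` if all columns are shorter than `N`.  At `t = 0` only the factor `1 - q^(γ_{N-1})`
remains: `Dop FB = sum_b q^(D(b)) (1 - q^(wt_{N-1}(b))) alt(wt(b) + δ)`.  By BL4 (rotation),
`sum_b q^(D(b) + wt_{N-1}(b)) alt(wt(b) + δ) = sum_b q^(D(b) + S(b)) alt(wt'(b) + δ)` with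
`S(b) = #{j : 0 ∈ L_j(b)}`, `wt' = (wt_1, ..., wt_{N-1}, wt_0)`; by BR0 for `i ≥ 1` (which
preserves `D` and `S`) `wt'` may be replaced by the reversed weight
`wtr = (wt_{N-1}, ..., wt_1, wt_0)`; and `sum_b q^D alt(wt + δ) = sum_b q^D alt(wtr + δ)` by
BS1.  By BW3 `S(b) > r` iff `0 ∈ L_r(b)`, so `1 - q^S = sum_r [0 ∈ L_r] (q^r - q^(r+1))` and it
remains to see that `sum_{b : 0 ∈ L_r(b)} q^D alt(wtr(b) + δ) = 0` for every `r`: `L_r` has
fewer than `N` elements and contains `0`; let `i` be minimal with `i ∈ L_r`, `i + 1 ∉ L_r`; the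
involution `rfp i` (BRP) keeps `L_r`, `D`, and swaps the entries `wt_i + i`, `wt_{i+1} + i + 1`
of `wtr + δ`.  (Checked by computer.) -/
def ST_BS3 : Prop := ∀ (N : ℕ) (cs : List ℕ), Dec cs → 0 < N → (∀ c ∈ cs, c < N) →
  Dop (Polynomial.X : Polynomial ℤ) 0 1 N (FB N cs) = 0

/-- BS4 (150 lines, from BW1, BW5).  Stability and the full column. -/
def ST_BS4 : Prop :=
  (∀ (N : ℕ) (cs : List ℕ) (γ : Fin N → ℕ), Dec cs →
    coeff (ex (Fin.snoc γ 0 : Fin (N + 1) → ℕ)) (FB (N + 1) cs) = coeff (ex γ) (FB N cs)) ∧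
  ∀ (k : ℕ) (cs : List ℕ), Dec (k :: cs) → FB k (k :: cs) = (∏ i : Fin k, X i) * FB k cs

/-- BU (150 lines, from BS1, BS3, BS4, UN, STB, PM, AL1, AL2, DC).  `FB N cs = fJ X 0 N cs`.
Induction on `cs` and `N`.  `N = k`, list `k :: cs`: both are `e_k` times the function of `cs`
(UN with `v = t = 0`, `Dop = Dl f`, cancel `Dl`).  `N` larger: the difference `G` is symmetric,
has only exponents with all entries `≥ 1` (stability), and `Dop_1 G = 0`; PM with the set of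
exponents of `G`: `G_ν (1 - q^(ν_{N-1})) = 0`. -/
def ST_BU : Prop := ∀ (N : ℕ) (cs : List ℕ), Dec cs → (∀ c ∈ cs, c ≤ N) →
  FB N cs = fJ (Polynomial.X : Polynomial ℤ) 0 N cs

/-- EX (250 lines).  If `μ` is below the partition with columns `cs` there is a highest weight
tableau of weight `μ`.  Induction on `cs`: remove from `μ` a vertical strip of size `c = c_0`
as high as possible: with `p` = the number of rows with `μ_i > v`, `v = μ_{c-1} ≥ 1` and `p + s`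
= the number of rows with `μ_i ≥ v`, remove one box in the rows `i < p` and in the rows
`p + s - (c - p) ≤ i < p + s`.  The rest `μ'` is antitone, and below the partition with columns
`cs'`: with `D(m) = sum_{i<m} (λ_i - μ_i) ≥ 0` and `r(m)` = number of removed boxes in rows
`< m`, one needs `D(m) ≥ min(m, c) - r(m)`.  This is clear for `m ≤ p` and `m ≥ p + s`.  In
between `μ_i = v` and `D` is concave with integer slopes `λ_i - v`; for `m ≥ c`, `λ_i = 0` for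
`i ≥ c` and `D(m) = D(p+s) + v (p+s-m) ≥ p + s - m ≥ min(m,c) - r(m)`; for `m < c`: if all
slopes up to `m` are `≥ 1` then `D(m) ≥ m - p ≥ m - r(m)`, otherwise the slopes from `m` to `c`
are `≤ 0` and `D(m) ≥ D(c) ≥ c - r(c) ≥ m - r(m)`. -/
def ST_EX : Prop := ∀ (n : ℕ) (cs : List ℕ) (μ : Fin n → ℕ), Dec cs → (∀ c ∈ cs, c ≤ n) →
  Antitone μ → ∑ i, μ i = cs.sum → Dge (fun i => (rowl n cs i : ℤ)) (fun i => (μ i : ℤ)) →
  ∃ b ∈ tl n cs, HW n b ∧ ∀ i : Fin n, wtc b i.val = μ i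

/-! ## Part F: positivity for large `k` -/

/-- the `q`-integer -/
noncomputable def qi (m : ℕ) : Polynomial ℤ := ∑ i ∈ range m, Polynomial.X ^ i

/-- CNT (250 lines).  The middle coefficients of the product of the `q`-integers.  The
coefficient is the number of `x : Fin n → ℕ` with `x_c < k h_c`, `sum x_c = N`.  Put
`S = sum h_c`, `m = k / (4 n)`, `A_c = h_c (N - n m) / S` (natural division), and for `c ≠ 0`
choose `x_c ∈ [A_c, A_c + m]` freely, `x_0 = N - sum_{c ≠ 0} x_c`.  Then for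
`k ≤ N ≤ (k S + w) / 2`: `x_0 ≥ N - (N - n m)(1 - h_0/S) - (n-1) m ≥ 0` and
`x_0 ≤ (N - n m) h_0 / S + n m + n < k h_0`, `A_c + m < k h_c`, if `k` is large
(`N h_c / S ≤ k h_c / 2 + w h_c / (2 S) ≤ k h_c / 2 + w`, `n m ≤ k / 4`). -/
def ST_CNT : Prop := ∀ (n : ℕ) (h : Fin n → ℕ) (w : ℕ), 0 < n → (∀ c, 0 < h c) →
  ∃ k0 : ℕ, ∀ k N : ℕ, k0 ≤ k → k ≤ N → 2 * N ≤ k * ∑ c, h c + w →
    (((k / (4 * n)) ^ (n - 1) : ℕ) : ℤ) ≤ (∏ c, qi (k * h c)).coeff N

/-- ERR (150 lines).  Coefficients of `g(q, q^k) / (1 - q)^(n-1)`: as a power series it is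
`sum_{i j} g_{i j} q^(i + k j) sum_N binom(N + n - 2, n - 2) q^N`, and
`binom(N + n - 2, n - 2) ≤ (N + n)^(n - 2)`; the constant is `sum |g_{i j}|`. -/
def ST_ERR : Prop := ∀ (n : ℕ) (g : R0), 2 ≤ n → ∃ Q : ℕ, ∀ (k N : ℕ) (E : Polynomial ℤ),
  (1 - Polynomial.X) ^ (n - 1) * E = g.eval (Polynomial.X ^ k) →
  |E.coeff N| ≤ Q * (N + n) ^ (n - 2)

/-- LOW (120 lines).  The first `k` coefficients are those of `A(q, 0) / (1 - q)^n`. -/
def ST_LOW : Prop := ∀ (n k : ℕ) (A : R0) (R : Polynomial ℤ),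
  (∀ N, 0 ≤ (A.coeff 0).coeff N) → A.eval (Polynomial.X ^ k) = (1 - Polynomial.X) ^ n * R →
  ∀ N < k, 0 ≤ R.coeff N

/-- PAL (150 lines).  `R` is palindromic: `M = w + k S - n`. -/
def ST_PAL : Prop := ∀ (n k w S : ℕ) (A : R0) (R : Polynomial ℤ),
  (∀ i j : ℕ, w < i ∨ S < j → (A.coeff j).coeff i = 0) →
  (∀ i j : ℕ, i ≤ w → j ≤ S →
    (A.coeff j).coeff i = (-1) ^ n * (A.coeff (S - j)).coeff (w - i)) →
  A.eval (Polynomial.X ^ k) = (1 - Polynomial.X) ^ n * R →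
  (∀ N, w + k * S < N + n → R.coeff N = 0) ∧
  ∀ N, N + n ≤ w + k * S → R.coeff N = R.coeff (w + k * S - n - N)

/-- FIN (200 lines, from CNT, ERR, LOW, PAL).  `A(q,t) = K prod (1 - t^(h_c)) + (1 - q) g(q,t)`,
so `R = K prod [k h_c] + g(q, q^k) / (1 - q)^(n-1)`.  For `N < k` use LOW, by PAL it is enough
to treat `2 N ≤ w + k S - n`; for `k ≤ N` in this range the coefficient is at least
`(k / (4 n))^(n-1) - Q (N + n)^(n-2)` and `N + n ≤ k (S + w + n)`: positive for large `k`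
(`n ≥ 2`).  For `n = 1`, `w = 0`, `S = 1` every `N ≤ w + k S - n = k - 1` is `< k`, and the
others are zero by PAL. -/
def ST_FIN : Prop := ∀ (n : ℕ) (A : R0) (K : ℕ) (h : Fin n → ℕ) (w : ℕ),
  (2 ≤ n ∨ (n = 1 ∧ w = 0 ∧ ∑ c, h c = 1)) → (∀ c, 0 < h c) → 0 < K →
  A.map (Polynomial.evalRingHom (1 : ℤ)) =
    Polynomial.C (K : ℤ) * ∏ c, (1 - Polynomial.X ^ h c) →
  (∀ N, 0 ≤ (A.coeff 0).coeff N) →
  (∀ i j : ℕ, w < i ∨ ∑ c, h c < j → (A.coeff j).coeff i = 0) →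
  (∀ i j : ℕ, i ≤ w → j ≤ ∑ c, h c →
    (A.coeff j).coeff i = (-1) ^ n * (A.coeff (∑ c, h c - j)).coeff (w - i)) →
  ∃ k0 : ℕ, ∀ k ≥ k0, ∀ R : Polynomial ℤ,
    A.eval (Polynomial.X ^ k) = (1 - Polynomial.X) ^ n * R → ∀ N, 0 ≤ R.coeff N

/-- CL (80 lines).  The hook-like lengths of the cells. -/
def ST_CL : Prop := ∀ (n : ℕ) (cs : List ℕ), cs.sum = n → ∃ h : Fin n → ℕ, (∀ c, 0 < h c) ∧
  ∑ c, h c = legS cs ∧ ∏ c, (1 - Polynomial.X ^ h c : Polynomial ℤ) =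
    (cs.map (fun c => ∏ i ∈ range c, (1 - Polynomial.X ^ (i + 1) : Polynomial ℤ))).prod

/-- Q1 (150 lines, from C1, C2, MP, BU, BS2).  The value of `a_{lambda mu}` at `q = 1`, and at
`t = 0`: the number `K` of highest weight tableaux. -/
def ST_Q1 : Prop := ∀ (n : ℕ) (cs : List ℕ) (μ : Fin n → ℕ), Dec cs → (∀ c ∈ cs, c ≤ n) →
  Antitone μ → ∀ T : Finset (List (Finset ℕ)), (∀ b, b ∈ T ↔ b ∈ tl n cs ∧ HW n b ∧
    ∀ i : Fin n, wtc b i.val = μ i) →
  (aP n cs μ).map (Polynomial.evalRingHom (1 : ℤ)) = Polynomial.C (T.card : ℤ) *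
    (cs.map (fun c => ∏ i ∈ range c, (1 - Polynomial.X ^ (i + 1) : Polynomial ℤ))).prod ∧
  (aP n cs μ).coeff 0 = ∑ b ∈ T, Polynomial.X ^ DD n b

/-- POS (200 lines, from FIN, CL, Q1, EX, SYA, SD, TT, GEN, MP, VD, LOW, PAL).  The main
theorem in `ℤ[q][t]`. -/
def ST_POS : Prop := ∀ (n : ℕ)
  (P : (Fin n → ℕ) → MvPolynomial (Fin n) (RatFunc (RatFunc ℚ))), IsMac n qF tF P →
  (∃ k0 : ℕ, ∀ k ≥ k0, ∀ lam ∈ parts n, ∀ μ ∈ parts n, ∃ R : Polynomial ℕ,
    (aP n (cols lam) μ).eval (Polynomial.X ^ k) =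
      (1 - Polynomial.X) ^ n * R.map (Nat.castRingHom ℤ)) ∧
  ∀ (k : ℕ), ∀ lam ∈ parts n, ∀ μ ∈ parts n, ∃ (R : Polynomial ℤ) (M : ℕ),
    (aP n (cols lam) μ).eval (Polynomial.X ^ k) = (1 - Polynomial.X) ^ n * R ∧
    R.natDegree ≤ M ∧ (∀ N ≤ M, R.coeff N = R.coeff (M - N)) ∧ ∀ N < k, 0 ≤ R.coeff N

/-- RES (150 lines, from ID, CO, SC, STB, UN, GEN, MP).  Back to the field `ℚ(q)(t)`; `Reg` and
`evc` as in `HG/Loc.lean` (`Reg c a`: the denominator does not vanish at `c`; `evc c a` the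
value). -/
def ST_RES : Prop := ∀ (n : ℕ)
  (P : (Fin n → ℕ) → MvPolynomial (Fin n) (RatFunc (RatFunc ℚ))), IsMac n qF tF P →
  ∀ lam ∈ parts n,
  (∏ i : Fin n, ∏ j ∈ range (lam i), (1 - qF ^ (lam i - j - 1) *
    tF ^ ((univ.filter (fun i' : Fin n => i < i' ∧ j < lam i')).card + 1))) • P lam =
    ∑ μ ∈ parts n, emb (aP n (cols lam) μ) • schur n _ μ

/-- EVL (80 lines).  The value of `emb A` at `t = q^k`. -/
def ST_EVL : Prop := ∀ (A : R0) (k : ℕ),
  (RatFunc.denom (emb A)).eval (RatFunc.X ^ k) ≠ 0 ∧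
  RatFunc.eval (RingHom.id (RatFunc ℚ)) (RatFunc.X ^ k) (emb A) =
    Polynomial.eval₂ (Int.castRingHom (RatFunc ℚ)) RatFunc.X (A.eval (Polynomial.X ^ k))

end Pool.Agent.Helper7.HL
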