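import Pool.Agent.Helper7.HL.Stmts

namespace Pool.Agent.Helper7.HL

open Finset MvPolynomial
open Pool.Agent.Helper32.HG

/-- the value of a polynomial in the field -/
theorem ev2_nat (R : Polynomial ℕ) :
    Polynomial.eval₂ (Int.castRingHom (RatFunc ℚ)) RatFunc.X (R.map (Nat.castRingHom ℤ)) =
      Polynomial.eval₂ (Nat.castRingHom (RatFunc ℚ)) RatFunc.X R := by
  rw [Polynomial.eval₂_map]
  congr 1

theorem ev2_one_sub (n : ℕ) (R : Polynomial ℤ) :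
    Polynomial.eval₂ (Int.castRingHom (RatFunc ℚ)) RatFunc.X ((1 - Polynomial.X) ^ n * R) =
      (1 - RatFunc.X) ^ n * Polynomial.eval₂ (Int.castRingHom (RatFunc ℚ)) RatFunc.X R := by
  rw [Polynomial.eval₂_mul, Polynomial.eval₂_pow, Polynomial.eval₂_sub, Polynomial.eval₂_one,
    Polynomial.eval₂_X]

/-- the final statement -/
def Final (n : ℕ) : Prop :=
    ∃ k0 : ℕ, ∀ P : (Fin n → ℕ) → MvPolynomial (Fin n) (RatFunc (RatFunc ℚ)),
      IsMac n qF tF P →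
    ∃ A : (Fin n → ℕ) → (Fin n → ℕ) → RatFunc (RatFunc ℚ),
      (∀ lam ∈ parts n,
        (∏ i : Fin n, ∏ j ∈ range (lam i), (1 - qF ^ (lam i - j - 1) *
          tF ^ ((univ.filter (fun i' : Fin n => i < i' ∧ j < lam i')).card + 1))) • P lam =
          ∑ μ ∈ parts n, A lam μ • schur n _ μ) ∧
      ∀ k ≥ k0, ∀ lam ∈ parts n, ∀ μ ∈ parts n, ∃ R : Polynomial ℕ,
        (RatFunc.denom (A lam μ)).eval (RatFunc.X ^ k) ≠ 0 ∧
        RatFunc.eval (RingHom.id (RatFunc ℚ)) (RatFunc.X ^ k) (A lam μ) =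
          (1 - RatFunc.X) ^ n *
            Polynomial.eval₂ (Nat.castRingHom (RatFunc ℚ)) RatFunc.X R

/-- the assembly -/
theorem asm (hPOS : ST_POS) (hRES : ST_RES) (hEVL : ST_EVL) (n : ℕ) : Final n := by
  by_cases hex : ∃ P : (Fin n → ℕ) → MvPolynomial (Fin n) (RatFunc (RatFunc ℚ)), IsMac n qF tF P
  · obtain ⟨P0, hP0⟩ := hex
    obtain ⟨k0, hk0⟩ := (hPOS n P0 hP0).1
    refine ⟨k0, fun P hP => ⟨fun lam μ => emb (aP n (cols lam) μ), ?_, ?_⟩⟩
    · intro lam hlam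
      exact hRES n P hP lam hlam
    · intro k hk lam hlam μ hμ
      obtain ⟨R, hR⟩ := hk0 k hk lam hlam μ hμ
      obtain ⟨h1, h2⟩ := hEVL (aP n (cols lam) μ) k
      refine ⟨R, h1, ?_⟩
      rw [h2, hR, ev2_one_sub, ev2_nat]
  · exact ⟨0, fun P hP => absurd ⟨P, hP⟩ hex⟩

end Pool.Agent.Helper7.HL
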