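import Mathlib
import Pool.Agent.Helper32.HG.Fam

/-!
# Haglund's conjecture for large `k`: definitions

`Sy R` is the ring of symmetric functions over `R` (polynomials in `h_1, h_2, ...`), `Bop q t k`
is the column operator with `H_{(k, mu)} = B_k H_mu`, `fJ q t N cs` is the integral Macdonald
polynomial in `N` variables of the partition with columns `cs`.

The library `Pool.Agent.Helper32.HG` is used: `ex` (function to exponent), `hk`, `hz` (complete
homogeneous), `Sd k S l = det (hz (l i - (k - 1 - j)))`, `parts`, `msym`, `schur`, `Psi`, `gh`,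
`Bf`, `wgt`, `om`, `WtN`, `below`, `IsMac`.
-/

namespace Pool.Agent.Helper7.HL

open Finset MvPolynomial
open Pool.Agent.Helper32.HG

/-! ## symmetric functions and the column operators -/

/-- The ring of symmetric functions over `R`: the variable `X m` stands for `h_{m+1}`. -/
abbrev Sy (R : Type) [CommRing R] : Type := MvPolynomial ℕ R

/-- the complete function `h_m` -/
noncomputable def hh (R : Type) [CommRing R] (m : ℕ) : Sy R := if m = 0 then 1 else X (m - 1)

/-- the generating series `H(u)` of the complete functions -/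
noncomputable def Hs (R : Type) [CommRing R] : PowerSeries (Sy R) := PowerSeries.mk (hh R)

/-- the inverse series `1 / H(u)` -/
noncomputable def SE (R : Type) [CommRing R] : PowerSeries (Sy R) :=
  PowerSeries.invOfUnit (Hs R) 1

/-- the coefficients of `1 / H(u)`: `se a = (-1)^a e_a` -/
noncomputable def se (R : Type) [CommRing R] (a : ℕ) : Sy R := PowerSeries.coeff a (SE R)

/-- the substitution `H(u) -> F(u)` (`F` has constant coefficient `1` in all uses) -/
noncomputable def sbt (R : Type) [CommRing R] {A : Type} [CommRing A] [Algebra R A]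
    (F : PowerSeries A) : Sy R →ₐ[R] A :=
  aeval (fun m : ℕ => PowerSeries.coeff (m + 1) F)

/-- the plethysm `X -> X (1 - t)`: `H(u) -> H(u) / H(t u)` -/
noncomputable def ptm {R : Type} [CommRing R] (t : R) : Sy R →ₐ[R] Sy R :=
  sbt R (Hs R * PowerSeries.rescale (C t) (SE R))

/-- evaluation in `N` variables -/
noncomputable def ev (R : Type) [CommRing R] (N : ℕ) : Sy R →ₐ[R] MvPolynomial (Fin N) R :=
  sbt R (PowerSeries.mk (hk N R))

/-- the series `prod_i (1 - q z_i u) / (1 - z_i u)` -/
noncomputable def chi {R : Type} [CommRing R] (q : R) (k : ℕ) :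
    PowerSeries (MvPolynomial (Fin k) (Sy R)) :=
  PowerSeries.mk (hk k (Sy R)) *
    ∏ i : Fin k, (1 - PowerSeries.C (C (C q) * X i) * PowerSeries.X)

/-- the shift `f[X] -> f[X + (1 - q) Z]` -/
noncomputable def shf {R : Type} [CommRing R] (q : R) (k : ℕ) :
    Sy R →ₐ[R] MvPolynomial (Fin k) (Sy R) :=
  sbt R (PowerSeries.map (C : Sy R →+* MvPolynomial (Fin k) (Sy R)) (Hs R) * chi q k)

/-- the staircase `delta_j = k - 1 - j` -/
def dl (k : ℕ) (j : Fin k) : ℕ := k - 1 - j.val

/-- the alternant `sum_sigma sgn(sigma) z^(l o sigma)` -/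
noncomputable def altp (k : ℕ) (A : Type) [CommRing A] (l : Fin k → ℕ) : MvPolynomial (Fin k) A :=
  ∑ σ : Equiv.Perm (Fin k), monomial (ex (l ∘ σ)) ((Equiv.Perm.sign σ : ℤ) : A)

/-- the Vandermonde determinant -/
noncomputable def Dl (k : ℕ) (A : Type) [CommRing A] : MvPolynomial (Fin k) A := altp k A (dl k)

/-- the linear functional `z^l -> prod_j phi_j(l_j)` -/
noncomputable def Lf {k : ℕ} {S : Type} [CommRing S] (φ : Fin k → ℕ → S)
    (p : MvPolynomial (Fin k) S) : S :=
  ∑ l ∈ p.support, coeff l p * ∏ j, φ j (l j)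

/-- the coefficient of `u^l` in `u^(delta_j - 1) (1 - t^(delta_j) / H(u))` -/
noncomputable def bs {R : Type} [CommRing R] (t : R) (k : ℕ) (j : Fin k) (l : ℕ) : Sy R :=
  if l + 1 < dl k j then 0
  else (if l + 1 = dl k j then 1 else 0) - C t ^ (dl k j) * se R (l + 1 - dl k j)

/-- the column operator `B_k` -/
noncomputable def Bop {R : Type} [CommRing R] (q t : R) (k : ℕ) (f : Sy R) : Sy R :=
  Lf (bs t k) (Dl k (Sy R) * shf q k f)

/-- `H_mu` for the partition `mu` with columns `cs` -/
noncomputable def Hc {R : Type} [CommRing R] (q t : R) : List ℕ → Sy R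
  | [] => 1
  | k :: cs => Bop q t k (Hc q t cs)

/-- the integral Macdonald polynomial in `N` variables of the partition with columns `cs` -/
noncomputable def fJ {R : Type} [CommRing R] (q t : R) (N : ℕ) (cs : List ℕ) :
    MvPolynomial (Fin N) R :=
  ev R N (ptm t (Hc q t cs))

/-- Macdonald's operator, times the Vandermonde determinant:
`sum_gamma f_gamma prod_i (1 - v q^(gamma_i) t^(delta_i)) alt(gamma + delta)` -/
noncomputable def Dop {R : Type} [CommRing R] (q t v : R) (N : ℕ) (f : MvPolynomial (Fin N) R) :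
    MvPolynomial (Fin N) R :=
  ∑ γ ∈ f.support, C (coeff γ f * ∏ i, (1 - v * q ^ (γ i) * t ^ (dl N i))) *
    altp N R (fun i => γ i + dl N i)

/-- the coefficient of the Schur polynomial of `mu` in `p` -/
noncomputable def scf {R : Type} [CommRing R] (N : ℕ) (μ : Fin N → ℕ)
    (p : MvPolynomial (Fin N) R) : R :=
  coeff (ex (fun i => μ i + dl N i)) (Dl N R * p)

/-- the rows of the partition with columns `cs` -/
def rowl (N : ℕ) (cs : List ℕ) (i : Fin N) : ℕ := cs.countP (fun c => decide (i.val < c))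

/-- the columns of a partition of `n` (with zeros at the end) -/
def cols {n : ℕ} (lam : Fin n → ℕ) : List ℕ :=
  (List.range n).map (fun j => (univ.filter (fun i : Fin n => j < lam i)).card)

/-- `c_lambda(q, t)` from the columns -/
def clf {R : Type} [CommRing R] (q t : R) : List ℕ → R
  | [] => 1
  | k :: cs => (∏ i : Fin k, (1 - t * q ^ (rowl k cs i) * t ^ (dl k i))) * clf q t cs

/-- the dominance order for arbitrary integer vectors -/
def Dge {k : ℕ} (ρ α : Fin k → ℤ) : Prop :=
  ∀ T : Finset (Fin k), ∃ S : Finset (Fin k), S.card = T.card ∧ ∑ i ∈ T, α i ≤ ∑ i ∈ S, ρ i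

/-! ## the functions `h_m[X / (1 - q)]` and `g_m` -/

/-- `h_m[X / (1 - q)]`; the generating series satisfies `W(u) = W(q u) H(u)` -/
noncomputable def gtt {K : Type} [Field K] (q : K) : ℕ → Sy K
  | 0 => 1
  | m + 1 => C (1 - q ^ (m + 1))⁻¹ *
      ∑ i : Fin (m + 1), C (q ^ i.val) * gtt q i.val * hh K (m + 1 - i.val)

/-- the coefficient of `u^(l+1)` in `u^(delta_j) (W(u) - t^(delta_j) W(q u))` -/
noncomputable def csf {K : Type} [Field K] (q t : K) (k : ℕ) (j : Fin k) (l : ℕ) : Sy K :=
  if l + 1 < dl k j then 0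
  else C (1 - q ^ (l + 1 - dl k j) * t ^ (dl k j)) * gtt q (l + 1 - dl k j)

/-- the coefficient of `u^m` in `prod_i c(z_i u)` -/
noncomputable def gw {S : Type} [CommRing S] (c : ℕ → S) (N m : ℕ) : MvPolynomial (Fin N) S :=
  ∑ d ∈ piAntidiag (univ : Finset (Fin N)) m, monomial (ex d) (∏ i, c (d i))

/-- the coefficients of `(t u; q)_infty / (u; q)_infty` -/
noncomputable def ph {K : Type} [Field K] (q t : K) (m : ℕ) : K :=
  ∏ i ∈ range m, (1 - t * q ^ i) / (1 - q ^ (i + 1))

/-- `g_m(z_1, ..., z_N; q, t)` -/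
noncomputable def gg {K : Type} [Field K] (q t : K) (N m : ℕ) : MvPolynomial (Fin N) K :=
  gw (ph q t) N m

/-- the entries of the determinants: the coefficient of `u^b` in
`u^d (Phi(u) - v t^d Phi(q u))`, `Phi(u) = sum_m g_m u^m` in `k` variables -/
noncomputable def Gm {K : Type} [Field K] (q t v : K) (k d b : ℕ) : MvPolynomial (Fin k) K :=
  if b < d then 0 else C (1 - v * q ^ (b - d) * t ^ d) * gg q t k (b - d)

/-- the matrix `E_{j l} = [u^(delta_j)] prod_{m != l} (1 - z_m u)` -/
noncomputable def Emat (k : ℕ) (S : Type) [CommRing S] :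
    Matrix (Fin k) (Fin k) (MvPolynomial (Fin k) S) :=
  Matrix.of fun j l => Polynomial.coeff
    (∏ m ∈ univ.erase l, (1 - Polynomial.C (X m) * Polynomial.X :
      Polynomial (MvPolynomial (Fin k) S))) (dl k j)

/-- the coefficients of `(1 - u) (t u; q)_infty / (u; q)_infty` -/
noncomputable def pp {K : Type} [Field K] (q t : K) (m : ℕ) : K :=
  if m = 0 then 1 else ph q t m - ph q t (m - 1)

/-- the span of the products of `k` functions `h_m[X / (1 - q)]` above `mu` -/
noncomputable def spg {K : Type} [Field K] (q : K) (k : ℕ) (μ : Fin k → ℕ) :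
    Submodule K (Sy K) :=
  Submodule.span K {x | ∃ ρ : Fin k → ℕ, Dge (fun i => (ρ i : ℤ)) (fun i => (μ i : ℤ)) ∧
    ∑ i, ρ i = ∑ i, μ i ∧ x = ∏ i, gtt q (ρ i)}

/-- `q` is generic -/
def GQ {K : Type} [Field K] (q : K) : Prop := ∀ m : ℕ, 0 < m → (1 : K) - q ^ m ≠ 0

/-- `q`, `t` are generic -/
def GQT {K : Type} [Field K] (q t : K) : Prop :=
  ∀ a b : ℕ, 0 < a + b → (1 : K) - q ^ a * t ^ b ≠ 0

/-- a list is weakly decreasing -/
def Dec (cs : List ℕ) : Prop := cs.Pairwise (fun a b => b ≤ a)

/-! ## the case `t = 0`: column tableaux and the energy -/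

/-- the periodic walk of the pair `c`, `d` -/
def wlk (N : ℕ) (c d : Finset ℕ) (j : ℕ) : ℤ :=
  ∑ i ∈ range j, ((if i % N ∈ d then 1 else 0) - (if i % N ∈ c then 1 else 0) : ℤ)

/-- the unmatched elements of `c` -/
def Um (N : ℕ) (c d : Finset ℕ) : Finset ℕ :=
  c.filter (fun i => ∀ j ∈ Ioc i (i + N), wlk N c d j < wlk N c d i)

/-- the left factor of the image of `c ⊗ d` under the combinatorial `R` matrix -/
def Rl (N : ℕ) (c d : Finset ℕ) : Finset ℕ := c \ Um N c d

/-- the right factor -/
def Rr (N : ℕ) (c d : Finset ℕ) : Finset ℕ := d ∪ Um N c d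

/-- the energy of `c ⊗ d` -/
def Hen (N : ℕ) (c d : Finset ℕ) : ℕ := (range (N + 1)).sup (fun j => (wlk N c d j).toNat)

/-- the list of the columns moved to the front -/
def LL (N : ℕ) : List (Finset ℕ) → List (Finset ℕ)
  | [] => []
  | c :: b => c :: (LL N b).map (fun d => Rl N c d)

/-- the energy of a column tableau -/
def DD (N : ℕ) : List (Finset ℕ) → ℕ
  | [] => 0
  | c :: b => DD N b + ((LL N b).map (fun d => Hen N c d)).sum

/-- the tableau with the `r`-th column (from `0`) moved to the front -/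
def mv (N : ℕ) : ℕ → List (Finset ℕ) → List (Finset ℕ)
  | 0, b => b
  | _ + 1, [] => []
  | r + 1, c :: b =>
    match mv N r b with
    | [] => [c]
    | d :: b' => Rl N c d :: Rr N c d :: b'

/-- `phi_i` of a column -/
def p1 (i : ℕ) (c : Finset ℕ) : ℕ := if i ∈ c ∧ i + 1 ∉ c then 1 else 0

/-- `epsilon_i` of a column -/
def e1 (i : ℕ) (c : Finset ℕ) : ℕ := if i + 1 ∈ c ∧ i ∉ c then 1 else 0

/-- `phi_i` of a tableau -/
def phi (i : ℕ) : List (Finset ℕ) → ℕ
  | [] => 0
  | c :: b => p1 i c + (phi i b - e1 i c)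

/-- `epsilon_i` of a tableau -/
def eps (i : ℕ) : List (Finset ℕ) → ℕ
  | [] => 0
  | c :: b => eps i b + (e1 i c - phi i b)

/-- the lowering operator `f_i` -/
def fo (i : ℕ) : List (Finset ℕ) → List (Finset ℕ)
  | [] => []
  | c :: b => if e1 i c < phi i b then c :: fo i b else insert (i + 1) (c.erase i) :: b

/-- the raising operator `e_i` -/
def eo (i : ℕ) : List (Finset ℕ) → List (Finset ℕ)
  | [] => []
  | c :: b => if e1 i c ≤ phi i b then c :: eo i b else insert i (c.erase (i + 1)) :: b

/-- the number of columns which contain `i` -/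
def wtc (b : List (Finset ℕ)) (i : ℕ) : ℕ := b.countP (fun c => decide (i ∈ c))

/-- the column tableaux with column lengths `cs` and entries below `N` -/
def tl (N : ℕ) : List ℕ → Finset (List (Finset ℕ))
  | [] => {[]}
  | k :: cs => (((range N).powersetCard k) ×ˢ tl N cs).image (fun p => p.1 :: p.2)

/-- the generating function of the column tableaux with the energy -/
noncomputable def FB (N : ℕ) (cs : List ℕ) : MvPolynomial (Fin N) (Polynomial ℤ) :=
  ∑ b ∈ tl N cs, monomial (ex (fun i : Fin N => wtc b i.val)) (Polynomial.X ^ DD N b)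

/-- rotation of a column -/
def rt (N : ℕ) (c : Finset ℕ) : Finset ℕ := c.image (fun i => (i + 1) % N)

/-- the reflection with `phi' = epsilon` -/
def rf0 (i : ℕ) (b : List (Finset ℕ)) : List (Finset ℕ) :=
  if eps i b ≤ phi i b then (fo i)^[phi i b - eps i b] b else (eo i)^[eps i b - phi i b] b

/-- the reflection with `phi' = epsilon + 1` -/
def rfp (i : ℕ) (b : List (Finset ℕ)) : List (Finset ℕ) :=
  if eps i b + 1 ≤ phi i b then (fo i)^[phi i b - (eps i b + 1)] b
  else (eo i)^[eps i b + 1 - phi i b] b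

/-- the reflection with `phi' + 1 = epsilon` -/
def rfm (i : ℕ) (b : List (Finset ℕ)) : List (Finset ℕ) :=
  if eps i b ≤ phi i b + 1 then (fo i)^[phi i b + 1 - eps i b] b
  else (eo i)^[eps i b - (phi i b + 1)] b

/-- all suffixes of the tableau have a weakly decreasing weight -/
def HW (N : ℕ) : List (Finset ℕ) → Prop
  | [] => True
  | c :: b => HW N b ∧ ∀ i : ℕ, i + 1 < N → wtc (c :: b) (i + 1) ≤ wtc (c :: b) i

/-! ## the two parameter ring -/

/-- the ring `ℤ[q][t]` -/
abbrev R0 : Type := Polynomial (Polynomial ℤ)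

/-- the element `q` of `ℤ[q][t]` -/
noncomputable def qz : R0 := Polynomial.C Polynomial.X

/-- the element `t` of `ℤ[q][t]` -/
noncomputable def tz : R0 := Polynomial.X

/-- the coefficient `a_{lambda mu}(q, t)`, `cs` the columns of `lambda` -/
noncomputable def aP (n : ℕ) (cs : List ℕ) (μ : Fin n → ℕ) : R0 := scf n μ (fJ qz tz n cs)

end Pool.Agent.Helper7.HL
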