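import Pool.Agent.Helper7.HL.Stmts

namespace Pool.Agent.Helper7.HL

open Finset MvPolynomial
open Pool.Agent.Helper32.HG

theorem ex_add1 {k : ℕ} (b : Fin k → ℕ) :
    ex (fun i => b i + 1) = ex (fun _ : Fin k => 1) + ex b := by
  ext i
  rw [Finsupp.add_apply, ex_apply, ex_apply, ex_apply, add_comm]

theorem prodX_eq {k : ℕ} {S : Type} [CommRing S] :
    (∏ i : Fin k, (X i : MvPolynomial (Fin k) S)) = monomial (ex (fun _ : Fin k => 1)) 1 := by
  rw [monomial_eq, map_one, one_mul, Finsupp.prod_fintype]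
  · apply prod_congr rfl
    intro i _
    rw [ex_apply, pow_one]
  · intro i
    rw [pow_zero]

theorem coeff_prodX {k : ℕ} {S : Type} [CommRing S] (b : Fin k → ℕ)
    (p : MvPolynomial (Fin k) S) :
    coeff (ex (fun i => b i + 1)) ((∏ i : Fin k, X i) * p) = coeff (ex b) p := by
  rw [prodX_eq, ex_add1, coeff_monomial_mul, one_mul]

theorem coeff_prodX_zero {k : ℕ} {S : Type} [CommRing S] (β : Fin k → ℕ)
    (p : MvPolynomial (Fin k) S) (i : Fin k) (h : β i = 0) :
    coeff (ex β) ((∏ i : Fin k, X i) * p) = 0 := by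
  rw [prodX_eq, coeff_monomial_mul', if_neg]
  intro hle
  have := hle i
  rw [ex_apply, ex_apply, h] at this
  omega

theorem hz_map' {S S' : Type} [CommRing S] [CommRing S'] (φ : S →+* S') (k : ℕ) (z : ℤ) :
    MvPolynomial.map φ (hz k S z) = hz k S' z := by
  unfold hz
  by_cases h : 0 ≤ z
  · rw [if_pos h, if_pos h, hk_map]
  · rw [if_neg h, if_neg h, map_zero]

theorem Sd_map' {S S' : Type} [CommRing S] [CommRing S'] (φ : S →+* S') (k : ℕ)
    (l : Fin k → ℤ) : MvPolynomial.map φ (Sd k S l) = Sd k S' l := by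
  unfold Sd
  rw [RingHom.map_det]
  congr 1
  apply Matrix.ext
  intro i j
  rw [RingHom.mapMatrix_apply, Matrix.map_apply, Matrix.of_apply, Matrix.of_apply, hz_map']

/-- the integer coefficient -/
noncomputable def cI (k : ℕ) (α l : Fin k → ℕ) : ℤ := coeff (ex α) (Sd k ℤ (fun i => (l i : ℤ)))

theorem coeff_Sd_cI {S : Type} [CommRing S] (k : ℕ) (α l : Fin k → ℕ) :
    coeff (ex α) (Sd k S (fun i => (l i : ℤ))) = ((cI k α l : ℤ) : S) := by
  rw [← Sd_map' (Int.castRingHom S), coeff_map]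
  rfl

theorem Lf_eq_sum {k : ℕ} {S : Type} [CommRing S] (φ : Fin k → ℕ → S)
    (p : MvPolynomial (Fin k) S) (T : Finset (Fin k → ℕ))
    (hT : ∀ l : Fin k → ℕ, coeff (ex l) p ≠ 0 → l ∈ T) :
    Lf φ p = ∑ l ∈ T, coeff (ex l) p * ∏ j, φ j (l j) := by
  unfold Lf
  have h1 : ∑ l ∈ T, coeff (ex l) p * ∏ j, φ j (l j) =
      ∑ l ∈ T.image ex, coeff l p * ∏ j, φ j (l j) := by
    rw [sum_image (fun a _ b _ h => ex_inj h)]
    rfl
  rw [h1]
  apply sum_subset
  · intro l hl
    rw [mem_support_iff] at hl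
    rw [mem_image]
    refine ⟨fun i => l i, hT _ ?_, ex_coe l⟩
    rwa [ex_coe]
  · intro l _ hl
    rw [notMem_support_iff] at hl
    rw [hl, zero_mul]

/-- the entries of the determinants -/
noncomputable def Gdet {K : Type} [Field K] (q t v : K) (k : ℕ) (b : Fin k → ℕ) :
    MvPolynomial (Fin k) K :=
  Matrix.det (Matrix.of fun i j : Fin k => Gm q t v k (dl k j) (b i))

theorem theta_csf {K : Type} [Field K] (q t : K) (hG : ST_GTG) (hq : GQ q) (k : ℕ) (j : Fin k)
    (l : ℕ) : ev K k (ptm t (csf q t k j l)) = Gm q t 1 k (dl k j) (l + 1) := by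
  unfold csf Gm
  by_cases h : l + 1 < dl k j
  · rw [if_pos h, if_pos h, map_zero, map_zero]
  · rw [if_neg h, if_neg h, map_mul, map_mul, hG K q t hq, one_mul]
    congr 1
    rw [← MvPolynomial.algebraMap_eq, AlgHom.commutes, AlgHom.commutes,
      MvPolynomial.algebraMap_eq]

theorem Salpha {K : Type} [Field K] (q t : K) (h3 : ST_A3) (hG : ST_GTG) (hKD : ST_KD)
    (hq : GQ q) (k : ℕ) (α : Fin k → ℕ) (T : Finset (Fin k → ℕ))
    (hT : ∀ l : Fin k → ℕ, cI k α l ≠ 0 → l ∈ T) :
    ev K k (ptm t (Bop q t k (∏ i, gtt q (α i)))) =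
      ∑ l ∈ T, ((cI k α l : ℤ) : MvPolynomial (Fin k) K) *
        ∏ j, Gm q t 1 k (dl k j) (l j + 1) := by
  rw [h3 K q t hq k α, Lf_eq_sum _ _ T, map_sum, map_sum]
  · apply sum_congr rfl
    intro l _
    rw [map_mul, map_mul, map_prod, map_prod, hKD k (Sy K) α l, coeff_Sd_cI, map_intCast,
      map_intCast]
    congr 1
    apply prod_congr rfl
    intro j _
    exact theta_csf q t hG hq k j (l j)
  · intro l hl
    apply hT
    intro h0
    apply hl
    rw [hKD k (Sy K) α l, coeff_Sd_cI, h0, Int.cast_zero]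

/-- coefficients with the exponent given by an integer vector -/
noncomputable def cz {k : ℕ} {M : Type} [AddCommGroup M] (f : (Fin k → ℕ) → M) :
    (Fin k → ℤ) → M := by
  classical
  exact fun γ => if ∀ i, 0 ≤ γ i then f (fun i => (γ i).toNat) else 0

theorem cz_sub {k : ℕ} {M : Type} [AddCommGroup M] (f : (Fin k → ℕ) → M) (β d : Fin k → ℕ) :
    cz f (fun i => (β i : ℤ) - d i) = if ∀ i, d i ≤ β i then f (fun i => β i - d i) else 0 := by
  unfold cz
  by_cases h : ∀ i, d i ≤ β i
  · rw [if_pos, if_pos h]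
    · congr 1
      funext i
      have := h i
      show ((β i : ℤ) - d i).toNat = β i - d i
      omega
    · intro i
      have := h i
      show (0 : ℤ) ≤ (β i : ℤ) - d i
      omega
  · rw [if_neg, if_neg h]
    intro h'
    apply h
    intro i
    have := h' i
    simp only at this
    omega

theorem cz_nat {k : ℕ} {M : Type} [AddCommGroup M] (f : (Fin k → ℕ) → M) (α : Fin k → ℕ) :
    cz f (fun i => (α i : ℤ)) = f α := by
  unfold cz
  rw [if_pos (fun i => Int.natCast_nonneg _)]
  congr 1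

theorem Gdet_zero {K : Type} [Field K] (q t : K) (k : ℕ) (β : Fin k → ℕ) (i : Fin k)
    (h : β i = 0) : Gdet q t 1 k β = 0 := by
  unfold Gdet
  apply Matrix.det_eq_zero_of_row_eq_zero i
  intro j
  rw [Matrix.of_apply, h]
  unfold Gm
  by_cases h1 : 0 < dl k j
  · rw [if_pos h1]
  · rw [if_neg h1]
    have h2 : dl k j = 0 := by omega
    rw [h2]
    simp

theorem first_part (hAL : ST_AL1) (hJT : ST_JT) {k : ℕ} {A : Type} [CommRing A]
    (β'' : Fin k → ℕ) (T : Finset (Fin k → ℕ)) (hT : ∀ σ : Equiv.Perm (Fin k), β'' ∘ σ ∈ T)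
    (G : Fin k → ℕ → A) :
    ∑ σ : Equiv.Perm (Fin k), (if ∀ i, dl k (σ i) ≤ β'' i then
      ((Equiv.Perm.sign σ : ℤ) : A) * ∑ l ∈ T,
        ((cI k (fun i => β'' i - dl k (σ i)) l : ℤ) : A) * ∏ j, G j (l j) else 0) =
      Matrix.det (Matrix.of fun i j : Fin k => G j (β'' i)) := by
  have h1 : ∀ l : Fin k → ℕ, ∑ σ : Equiv.Perm (Fin k), (if ∀ i, dl k (σ i) ≤ β'' i then
      ((Equiv.Perm.sign σ : ℤ) : ℤ) * cI k (fun i => β'' i - dl k (σ i)) l else 0) =
      ∑ σ : Equiv.Perm (Fin k), if β'' = l ∘ σ then ((Equiv.Perm.sign σ : ℤ) : ℤ) else 0 := by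
    intro l
    have e1 := (hAL k ℤ).2.2.2 β'' (Sd k ℤ (fun i => (l i : ℤ)))
    rw [hJT k ℤ l, (hAL k ℤ).1 l β''] at e1
    simp only [Int.cast_id] at e1
    exact e1.symm
  have h2 : ∑ σ : Equiv.Perm (Fin k), (if ∀ i, dl k (σ i) ≤ β'' i then
      ((Equiv.Perm.sign σ : ℤ) : A) * ∑ l ∈ T,
        ((cI k (fun i => β'' i - dl k (σ i)) l : ℤ) : A) * ∏ j, G j (l j) else 0) =
      ∑ l ∈ T, (((∑ σ : Equiv.Perm (Fin k), (if ∀ i, dl k (σ i) ≤ β'' i then
      ((Equiv.Perm.sign σ : ℤ) : ℤ) * cI k (fun i => β'' i - dl k (σ i)) l else 0) : ℤ)) : A) *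
        ∏ j, G j (l j) := by
    simp only [Int.cast_sum, sum_mul]
    rw [sum_comm]
    apply sum_congr rfl
    intro σ _
    by_cases h : ∀ i, dl k (σ i) ≤ β'' i
    · simp only [if_pos h]
      rw [mul_sum]
      apply sum_congr rfl
      intro l _
      push_cast
      ring
    · simp only [if_neg h]
      simp
  rw [h2]
  simp only [h1]
  have h3 : ∑ l ∈ T, (((∑ σ : Equiv.Perm (Fin k), if β'' = l ∘ σ then
      ((Equiv.Perm.sign σ : ℤ) : ℤ) else 0 : ℤ)) : A) * ∏ j, G j (l j) =
      ∑ σ : Equiv.Perm (Fin k), ∑ l ∈ T, if β'' = l ∘ σ then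
        ((Equiv.Perm.sign σ : ℤ) : A) * ∏ j, G j (l j) else 0 := by
    rw [sum_comm]
    apply sum_congr rfl
    intro l _
    rw [Int.cast_sum, sum_mul]
    apply sum_congr rfl
    intro σ _
    by_cases h : β'' = l ∘ σ
    · simp only [if_pos h]
    · simp only [if_neg h]
      simp
  rw [h3, Matrix.det_apply']
  apply Fintype.sum_equiv (Equiv.inv (Equiv.Perm (Fin k)))
  intro σ
  have h4 : β'' ∘ (σ⁻¹ : Equiv.Perm (Fin k)) ∈ T := hT σ⁻¹
  rw [sum_eq_single_of_mem (β'' ∘ (σ⁻¹ : Equiv.Perm (Fin k))) h4]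
  · rw [if_pos]
    · rw [Equiv.inv_apply, Equiv.Perm.sign_inv]
      rfl
    · funext x
      simp
  · intro l _ hl
    rw [if_neg]
    intro h
    apply hl
    rw [h]
    funext x
    simp

/-- K2S -/
theorem st_K2S (h3 : ST_A3) (hG : ST_GTG) (hKD : ST_KD) (hJT : ST_JT) (hAL : ST_AL1)
    (hUL : ST_UL) (hGD : ST_GD) (hK3 : ST_KD3) (hSK : ST_SK) (hDG : ST_DG) : ST_K2S := by
  intro K _ q t hq k α
  -- the two sides
  set A : (Fin k → ℕ) → MvPolynomial (Fin k) K := fun α =>
    ev K k (ptm t (Bop q t k (∏ i, gtt q (α i)))) with hA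
  set B : (Fin k → ℕ) → MvPolynomial (Fin k) K := fun α =>
    Dop q t t k (∏ i, gg q t k (α i)) with hB
  have key : ∀ β : Fin k → ℕ, ∀ γ : Fin k → ℤ,
      cz (fun α => coeff (ex β) (Dl k K * A α) - coeff (ex β) ((∏ i : Fin k, X i) * B α)) γ
        = 0 := by
    intro β
    apply hUL k K
    · intro γ i hi
      unfold cz
      rw [if_neg]
      intro h
      have := h i
      omega
    · intro β''
      have e1 : ∀ σ : Equiv.Perm (Fin k), (Equiv.Perm.sign σ : ℤ) •
          cz (fun α => coeff (ex β) (Dl k K * A α) - coeff (ex β) ((∏ i : Fin k, X i) * B α))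
            (fun i => (β'' i : ℤ) - dl k (σ i)) =
          coeff (ex β) (Dl k K * (if ∀ i, dl k (σ i) ≤ β'' i then
            ((Equiv.Perm.sign σ : ℤ) : MvPolynomial (Fin k) K) *
              A (fun i => β'' i - dl k (σ i)) else 0)) -
          (if ∀ i, dl k (σ i) ≤ β'' i then ((Equiv.Perm.sign σ : ℤ) : K) *
            coeff (ex β) ((∏ i : Fin k, X i) * B (fun i => β'' i - dl k (σ i))) else 0) := by
        intro σ
        rw [cz_sub _ β'' (fun i => dl k (σ i))]
        by_cases h : ∀ i, dl k (σ i) ≤ β'' i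
        · rw [if_pos h, if_pos h, if_pos h, zsmul_eq_mul, mul_sub]
          congr 1
          have e2 : Dl k K * (((Equiv.Perm.sign σ : ℤ) : MvPolynomial (Fin k) K) *
              A (fun i => β'' i - dl k (σ i))) = C ((Equiv.Perm.sign σ : ℤ) : K) *
              (Dl k K * A (fun i => β'' i - dl k (σ i))) := by
            rw [map_intCast]
            ring
          rw [e2, coeff_C_mul]
        · rw [if_neg h, if_neg h, if_neg h, smul_zero, mul_zero, coeff_zero, sub_zero]
      rw [sum_congr rfl (fun σ _ => e1 σ), sum_sub_distrib, ← coeff_sum, ← mul_sum]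
      -- the first part
      have p1 : ∑ σ : Equiv.Perm (Fin k), (if ∀ i, dl k (σ i) ≤ β'' i then
            ((Equiv.Perm.sign σ : ℤ) : MvPolynomial (Fin k) K) *
              A (fun i => β'' i - dl k (σ i)) else 0) =
            Gdet q t 1 k (fun i => β'' i + 1) := by
        have hfin : ∀ σ : Equiv.Perm (Fin k), ∀ l : Fin k → ℕ, (∀ i, dl k (σ i) ≤ β'' i) →
            cI k (fun i => β'' i - dl k (σ i)) l ≠ 0 →
            l ∈ piAntidiag (univ : Finset (Fin k)) (∑ i, β'' i) := by
          intro σ l hσ hl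
          rw [mem_piAntidiag]
          refine ⟨?_, fun i _ => mem_univ i⟩
          have h5 := (hDG k ℤ (fun i => β'' i - dl k (σ i)) l hl).2
          have h6 : ∑ i, (dl k (σ i) : ℤ) = ∑ i, (dl k i : ℤ) :=
            Equiv.sum_comp σ (fun i => (dl k i : ℤ))
          have h7 : ∑ i, ((β'' i - dl k (σ i) : ℕ) : ℤ) =
              ∑ i, (β'' i : ℤ) - ∑ i, (dl k (σ i) : ℤ) := by
            rw [← sum_sub_distrib]
            apply sum_congr rfl
            intro i _
            have := hσ i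
            omega
          rw [h7, h6] at h5
          have h8 : ∑ i, (l i : ℤ) = ∑ i, (β'' i : ℤ) := by linarith
          exact_mod_cast h8
        have hperm : ∀ σ : Equiv.Perm (Fin k),
            β'' ∘ σ ∈ piAntidiag (univ : Finset (Fin k)) (∑ i, β'' i) := by
          intro σ
          rw [mem_piAntidiag]
          exact ⟨Equiv.sum_comp σ β'', fun i _ => mem_univ i⟩
        rw [Gdet, ← first_part hAL hJT β'' _ hperm (fun j l => Gm q t 1 k (dl k j) (l + 1))]
        apply sum_congr rfl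
        intro σ _
        by_cases h : ∀ i, dl k (σ i) ≤ β'' i
        · rw [if_pos h, if_pos h, hA]
          simp only
          rw [Salpha q t h3 hG hKD hq k _ _ (fun l hl => hfin σ l h hl)]
        · rw [if_neg h, if_neg h]
      rw [p1]
      have hsk := hSK K q t hq k β (fun i => β'' i + 1)
      change coeff (ex β) (Dl k K * Gdet q t 1 k (fun i => β'' i + 1)) =
        coeff (ex (fun i => β'' i + 1)) (Dl k K * Gdet q t 1 k β) at hsk
      rw [hsk]
      by_cases h0 : ∃ i, β i = 0
      · obtain ⟨i, hi⟩ := h0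
        rw [Gdet_zero q t k β i hi, mul_zero, coeff_zero, zero_sub, neg_eq_zero]
        apply sum_eq_zero
        intro σ _
        rw [coeff_prodX_zero β _ i hi, mul_zero, ite_self]
      · push Not at h0
        obtain ⟨b, hb⟩ : ∃ b : Fin k → ℕ, β = fun i => b i + 1 := by
          refine ⟨fun i => β i - 1, ?_⟩
          funext i
          have := h0 i
          show β i = β i - 1 + 1
          omega
        have hKD3 := (hK3 K q t hq k).2 b
        have e3 : ∀ σ : Equiv.Perm (Fin k), (if ∀ i, dl k (σ i) ≤ β'' i then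
            ((Equiv.Perm.sign σ : ℤ) : K) *
              coeff (ex β) ((∏ i : Fin k, X i) * B (fun i => β'' i - dl k (σ i))) else 0) =
            if ∀ i, dl k (σ i) ≤ β'' i then ((Equiv.Perm.sign σ : ℤ) : K) *
              coeff (ex (fun i => β'' i - dl k (σ i))) (Gdet q t t k b) else 0 := by
          intro σ
          by_cases h : ∀ i, dl k (σ i) ≤ β'' i
          · rw [if_pos h, if_pos h, hb, coeff_prodX, hB]
            simp only
            rw [hGD K q t t k k]
            rfl
          · rw [if_neg h, if_neg h]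
        rw [sum_congr rfl (fun σ _ => e3 σ), ← (hAL k K).2.2.2 β'' (Gdet q t t k b),
          ← coeff_prodX β'']
        have e4 : (∏ i : Fin k, (X i : MvPolynomial (Fin k) K)) * (Dl k K * Gdet q t t k b) =
            Dl k K * Gdet q t 1 k β := by
          have : Gdet q t 1 k β = (∏ i : Fin k, (X i : MvPolynomial (Fin k) K)) *
              Gdet q t t k b := by
            rw [hb]
            exact hKD3
          rw [this]
          ring
        rw [e4, sub_self]
  apply ext_ex
  intro β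
  have := key β (fun i => (α i : ℤ))
  rw [cz_nat, sub_eq_zero] at this
  exact this

end Pool.Agent.Helper7.HL
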