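import Pool.Agent.Helper7.HL.Asm
import Pool.Agent.Helper7.HL.K2S
import Pool.Agent.Helper20.HL.LAU
import Pool.Agent.Helper12.HL.BS2
import Pool.Agent.Helper12.HL.BS3
import Pool.Agent.Helper15.HL.BS4
import Pool.Agent.Helper15.HL.UN
import Pool.Agent.Helper18.HL.BU
import Pool.Agent.Helper18.HL.VD
import Pool.Agent.Helper23.HL.C2
import Pool.Agent.Helper23.HL.EM
import Pool.Agent.Helper23.HL.LF
import Pool.Agent.Helper24.HL.BL2
import Pool.Agent.Helper25.HL.CV
import Pool.Agent.Helper25.HL.NU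
import Pool.Agent.Helper25.HL.SG
import Pool.Agent.Helper25.HL.SYM
import Pool.Agent.Helper27.HL.AL2
import Pool.Agent.Helper27.HL.IDA
import Pool.Agent.Helper27.HL.MP
import Pool.Agent.Helper28.HL.CNT
import Pool.Agent.Helper28.HL.EX
import Pool.Agent.Helper31.HL.BW4
import Pool.Agent.Helper34.HL.TT
import Pool.Agent.Helper39.HL.BL4
import Pool.Agent.Helper39.HL.BW3
import Pool.Agent.Helper39.HL.CL
import Pool.Agent.Helper39.HL.ID
import Pool.Agent.Helper39.HL.KD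
import Pool.Agent.Helper39.HL.SYA
import Pool.Agent.Helper48.HL.AL1
import Pool.Agent.Helper48.HL.CO
import Pool.Agent.Helper48.HL.DC
import Pool.Agent.Helper48.HL.GEN
import Pool.Agent.Helper48.HL.KD3
import Pool.Agent.Helper48.HL.PD
import Pool.Agent.Helper48.HL.STB
import Pool.Agent.Helper49.HL.POS
import Pool.Agent.Helper55.HL.C1
import Pool.Agent.Helper55.HL.Q1
import Pool.Agent.Helper55.HL.RES
import Pool.Agent.Helper58.HL.ERR
import Pool.Agent.Helper58.HL.FIN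
import Pool.Agent.Helper58.HL.LOW
import Pool.Agent.Helper58.HL.PAL
import Pool.Agent.Helper59.HL.DG
import Pool.Agent.Helper59.HL.SC
import Pool.Agent.Helper59.HL.SD
import Pool.Agent.Helper63.HL.CI
import Pool.Agent.Helper63.HL.INV
import Pool.Agent.Helper72.HL.BW1
import Pool.Agent.Helper72.HL.BW2
import Pool.Agent.Helper72.HL.BW5
import Pool.Agent.Helper73.HL.IDB
import Pool.Agent.Helper73.HL.KF
import Pool.Agent.Helper73.HL.PSI
import Pool.Agent.Helper8.HL.BL1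
import Pool.Agent.Helper8.HL.BL3
import Pool.Agent.Helper80.HL.BR0
import Pool.Agent.Helper80.HL.BRM
import Pool.Agent.Helper80.HL.BRP
import Pool.Agent.Helper80.HL.BS1
import Pool.Agent.Helper86.HL.SK
import Pool.Agent.Helper88.HL.PM
import Pool.Agent.Helper88.HL.UL
import Pool.Agent.Helper96.HL.A3
import Pool.Agent.Helper96.HL.TQ

namespace Pool.Agent.Helper7.HL

open Pool.Agent

theorem mainRows : ST_POS ∧ ST_RES := by
  have hAL1 := st_AL1
  have hDC := st_DC
  have hPD := st_PD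
  have hCO := st_CO
  have hSTB := st_STB
  have hGEN := st_GEN
  have hLAU := Helper20.HL.LAU.st_LAU hGEN
  have hKD3 := st_KD3 Helper25.HL.st_CR
  have hLF := Helper23.HL.st_LF
  have hJT := Helper23.HL.st_JT
  have hEM := Helper23.HL.st_EM
  have hCV := Helper25.HL.st_CV
  have hSG := Helper25.HL.st_SG
  have hGTG := Helper25.HL.st_GTG
  have hSYM := Helper25.HL.st_SYM
  have hGD := Helper25.HL.st_GD hDC
  have hNU := Helper25.HL.st_NU
  have hPH := Helper25.HL.st_PH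
  have hUL := Helper88.HL.st_UL
  have hPM := Helper88.HL.st_PM
  have hA3 := Helper96.HL.st_A3 hLF hJT hUL hCV hSG
  have hKD := Helper39.HL.st_KD hAL1 hSYM
  have hDG := Helper59.HL.st_DG
  have hTQ := Helper96.HL.st_TQ hA3 hLF hKD hDG
  have hSK := Helper86.HL.st_SK hEM hNU
  have hK2S := st_K2S hA3 hGTG hKD hJT hAL1 hUL hGD hKD3 hSK hDG
  have hKF := Helper73.HL.st_KF hTQ hK2S hGTG hGD hKD3 hDC hLF
  have hMP := Helper27.HL.st_MP
  have hAL2 := Helper27.HL.st_AL2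
  have hUN := Helper15.HL.st_UN hKF hMP hGEN
  have hTT := Helper34.HL.st_TT hUN hSTB hPD hPM hAL1 hDC
  have hPSI := Helper73.HL.st_PSI hPH
  have hIDA := Helper27.HL.st_IDA
  have hIDB := Helper73.HL.st_IDB hTQ hGTG hPSI
  have hID := Helper39.HL.st_ID hIDA hIDB hTT hSTB hUN
  have hSC := Helper59.HL.st_SC hJT hAL1
  have hSD := Helper59.HL.st_SD hAL1 hPD
  have hC1 := Helper55.HL.st_C1 hUN hTT hGEN hMP hSTB
  have hC2 := Helper23.HL.st_C2
  have hINV := Helper63.HL.st_INV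
  have hCI := Helper63.HL.st_CI
  have hSYA := Helper39.HL.st_SYA hID hINV hCI hGEN hMP hLAU
  have hVD := Helper18.HL.st_VD hUN hSTB hPM hDC hAL2
  have hBW1 := Helper72.HL.st_BW1
  have hBW2 := Helper72.HL.st_BW2
  have hBW3 := Helper39.HL.st_BW3
  have hBW4 := Helper31.HL.st_BW4
  have hBW5 := Helper72.HL.st_BW5
  have hBL1 := Helper8.HL.st_BL1
  have hBL2 := Helper24.HL.st_BL2 hBW1 hBW4 hBL1
  have hBL3 := Helper8.HL.st_BL3 hBW4 hBL1 hBL2
  have hBL4 := Helper39.HL.st_BL4 hBW1 hBW2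
  have hBR0 := Helper80.HL.st_BR0 hBL1 hBL2 hBL3
  have hBRP := Helper80.HL.st_BRP hBL1 hBL2 hBL3
  have hBRM := Helper80.HL.st_BRM hBL1 hBL3
  have hBS1 := Helper80.HL.st_BS1 hBR0
  have hBS2 := Helper12.HL.st_BS2 hBS1 hBRM hBL1 hAL1 hDC
  have hBS3 := Helper12.HL.st_BS3 hBR0 hBRP hBL2 hBL4 hBW3 hAL1 hDC
  have hBS4 := Helper15.HL.st_BS4 hBW1 hBW5
  have hBU := Helper18.HL.st_BU hBS1 hBS3 hBS4 hUN hSTB hPM hAL2 hDC
  have hEX := Helper28.HL.st_EX
  have hCNT := Helper28.HL.st_CNT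
  have hERR := Helper58.HL.st_ERR
  have hLOW := Helper58.HL.st_LOW
  have hPAL := Helper58.HL.st_PAL
  have hFIN := Helper58.HL.st_FIN hCNT hERR hLOW hPAL
  have hCL := Helper39.HL.st_CL
  have hQ1 := Helper55.HL.st_Q1 hC1 hC2 hMP hBU hBS2
  have hPOS := Helper49.HL.st_POS hFIN hCL hQ1 hEX hSYA hSD hTT hGEN hMP hVD hLOW hPAL hCO
  have hRES := Helper55.HL.st_RES hID hCO hSC hSTB hUN hGEN hMP
  exact ⟨hPOS, hRES⟩

/-- the final theorem -/
theorem mainThm (n : ℕ) : Final n := asm mainRows.1 mainRows.2 st_EVL n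

end Pool.Agent.Helper7.HL
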